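import Pool.Agent.WIR.Defs

/-!
WIR, block B: the random walk with horizon `B` and the triangle system. Everything is real and all
sums are finite. The docstrings contain the complete proofs. Numerical facts on `lam = log_2 9`
are collected in `LamStmt`.
-/

namespace Pool.Agent.WIR

open scoped BigOperators

/-- **Row LAM**. PROOF. lam = logb 2 9 ≥ 3 since 2^3 ≤ 9; lam < 317/100 since 9^100 < 2^317
(`norm_num`; take logarithms). Third part: w = floor((s-3)/lam), so lam w ≤ s - 3 and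
w > (s-3)/lam - 1 ≥ 0.3154 (s-3) - 1 (1/3.17 > 0.3154), 100 w > 31.54 s - 194.62 ≥ 31 s - 195. -/
def LamStmt : Prop :=
  3 ≤ lam ∧ lam < 317 / 100 ∧
  ∀ s : ℕ, 3 ≤ s → ∃ w : ℕ, lam * w ≤ (s : ℝ) - 3 ∧ 31 * s ≤ 100 * w + 195

/-- **Row KGG**. PROOF. Exchange the sums: for fixed x the y with l+1 ≤ y, y+1 ≤ x are
x - l - 1 many, and (1/2)^(y-l) (1/2)^(x-y) = (1/2)^(x-l). -/
def KggStmt : Prop := ∀ (B : ℕ) (f : ℕ → ℝ) (l : ℕ), Kh B f l = Gh B (Gh B f) l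

/-- **Row GST**. PROOF. If l + 1 ≤ B split off x = l + 1; in the other terms
(1/2)^(x-l) = (1/2) (1/2)^(x-(l+1)). If B ≤ l all three terms vanish (f (l+1) = 0). -/
def GstStmt : Prop :=
  ∀ (B : ℕ) (f : ℕ → ℝ) (l : ℕ), (∀ x, B < x → f x = 0) →
    Gh B f l = (f (l + 1) + Gh B f (l + 1)) / 2

/-- **Row MON** (monotone, linear, mass, support). PROOF. The weights are nonnegative; masses:
sum_(o=1..n) 2^(-o) = 1 - 2^(-n), sum_(b=2..n) (b-1) 2^(-b) = 1 - (n+1) 2^(-n) (induction), or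
KGG and twice the first one. -/
def MonStmt : Prop :=
  (∀ (B : ℕ) (f g : ℕ → ℝ) (l : ℕ), (∀ x, l < x → x ≤ B → f x ≤ g x) →
    Gh B f l ≤ Gh B g l ∧ Kh B f l ≤ Kh B g l) ∧
  (∀ (B : ℕ) (f g : ℕ → ℝ) (c : ℝ) (l : ℕ),
    Gh B (fun x => f x + c * g x) l = Gh B f l + c * Gh B g l ∧
    Kh B (fun x => f x + c * g x) l = Kh B f l + c * Kh B g l) ∧
  (∀ (B : ℕ) (c : ℝ) (l : ℕ), 0 ≤ c → Gh B (fun _ => c) l ≤ c ∧ Kh B (fun _ => c) l ≤ c) ∧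
  (∀ (B : ℕ) (f : ℕ → ℝ) (l : ℕ), B ≤ l → Gh B f l = 0 ∧ Kh B f l = 0)

/-- **Row MOM** (first moments). PROOF. Enlarging B only increases the left sides (terms
nonnegative for x ≥ l ≥ y0). sum_o o 2^(-o) ≤ 2, sum_b b (b-1) 2^(-b) ≤ 4 over finite ranges
(induction: sum_(o=1..n) o 2^(-o) = 2 - (n+2) 2^(-n)), masses ≤ 1; x - y0 = (x-l) + (l-y0). -/
def MomStmt : Prop :=
  ∀ (B l y0 : ℕ) (α β : ℝ), 0 ≤ α → 0 ≤ β → y0 ≤ l →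
    Gh B (fun x => α * ((x : ℝ) - y0) + β) l ≤ α * ((l : ℝ) + 2 - y0) + β ∧
    Kh B (fun x => α * ((x : ℝ) - y0) + β) l ≤ α * ((l : ℝ) + 4 - y0) + β

/-- **Row GKM** (mass with a discount on the first 9 positions). PROOF. Enlarging B increases the
left sides, so let B ≥ l + 9; left side ≤ Y (total mass) - γ Y (mass of x ≤ l + 9), total mass
≤ 1, and the mass of x ≤ l+9 is 1 - 2^(-9) for Gh and 1 - 10/512 for Kh, both ≥ 9/10. -/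
def GkmStmt : Prop :=
  ∀ (B l : ℕ) (γ Y : ℝ), 0 ≤ γ → γ ≤ 1 → 0 ≤ Y →
    Gh B (fun x => if x ≤ l + 9 then (1 - γ) * Y else Y) l ≤ (1 - 9 / 10 * γ) * Y ∧
    Kh B (fun x => if x ≤ l + 9 then (1 - γ) * Y else Y) l ≤ (1 - 9 / 10 * γ) * Y

/-- **Row FPG** (Pascal). PROOF. Induction on s, for all l, with the stronger statement: for
s' ≤ s, G 0 l ≤ sum_(r ≤ s') C(s',r) 2^(-s') G r (l+s') (all r ≤ s' < s satisfy r < s). Step: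
C(s'+1,r) = C(s',r-1) + C(s',r). -/
def FpgStmt : Prop :=
  ∀ (s : ℕ) (G : ℕ → ℕ → ℝ) (l : ℕ),
    (∀ r x, r < s → G r x ≤ (G (r + 1) (x + 1) + G r (x + 1)) / 2) →
    G 0 l ≤ ∑ r ∈ Finset.range (s + 1), (s.choose r : ℝ) * (1 / 2 : ℝ) ^ s * G r (l + s)

/-- **Row FPS** (first passage; uses KGG GST MON FPG). PROOF. G r x := 1 if R0 ≤ r; otherwise
Kh B (V (r/2+1)) x for even r and Gh B (V (r/2+1)) x for odd r. V 0 l ≤ G 0 l: if R0 = 0 because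
V ≤ 1, otherwise by the hypothesis for k = 0. Recurrence of FPG for r < s: if R0 ≤ r both sides
are 1. Let r < R0. r = 2k: by KGG, GST (for Gh B (V (k+1)), which vanishes beyond B by MON)
G r x = (Gh B (V (k+1)) (x+1) + Kh B (V (k+1)) (x+1))/2, and Gh B (V (k+1)) (x+1) is at most
G (r+1) (x+1) (equal if r + 1 < R0, otherwise it is ≤ 1 as V ≤ 1, mass ≤ 1). r = 2k+1: GST:
G r x = (V (k+1) (x+1) + Gh B (V (k+1)) (x+1))/2 and V (k+1) (x+1) ≤ G (r+1) (x+1): if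
2k+2 < R0 by the hypothesis for k+1 (2k+2 ≤ s since r < s), otherwise G = 1. At the end split
the sum into r < R0 and r ≥ R0. -/
def FpsStmt : Prop :=
  ∀ (B s R0 : ℕ) (V : ℕ → ℕ → ℝ) (l : ℕ), (∀ k x, B < x → V k x = 0) → (∀ k x, V k x ≤ 1) →
    (∀ k x, 2 * k < R0 → 2 * k ≤ s → V k x ≤ Kh B (V (k + 1)) x) →
    V 0 l ≤ FPE B s R0 V l + ∑ r ∈ (Finset.range (s + 1)).filter (fun r => R0 ≤ r),
      (s.choose r : ℝ) * (1 / 2 : ℝ) ^ s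

/-- **Row HOE** (Hoeffding). PROOF. θ = u/s ≥ 0. exp(θ u) sum_(u ≤ 2r-s) C(s,r)
≤ sum_r C(s,r) exp(θ(2r-s)) = (exp θ + exp(-θ))^s = 2^s cosh(θ)^s ≤ 2^s exp(θ² s/2)
(`Real.cosh_le_exp_half_sq`), and θ u - θ² s/2 = u²/(2s). Second part: symmetry r -> s - r, or
the same with -θ. -/
def HoeStmt : Prop :=
  ∀ (s : ℕ) (u : ℝ), 0 < s → 0 ≤ u →
    (∑ r ∈ (Finset.range (s + 1)).filter (fun r : ℕ => u ≤ 2 * (r : ℝ) - s), (s.choose r : ℝ)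
      ≤ 2 ^ s * Real.exp (-(u ^ 2 / (2 * s)))) ∧
    (∑ r ∈ (Finset.range (s + 1)).filter (fun r : ℕ => u ≤ (s : ℝ) - 2 * r), (s.choose r : ℝ)
      ≤ 2 ^ s * Real.exp (-(u ^ 2 / (2 * s))))

/-- **Row GCH** (uses HOE). PROOF. If 31 s + 900 < 100 (r/2) then 2 r - s > 0.24 s + 36 =: u.
s = 0: no r. s ≥ 1: u² ≥ 4 * 0.24 s * 36 = 34.56 s, so exp(-u²/(2s)) ≤ exp(-17) < 1/10. -/
def GchStmt : Prop :=
  ∀ s : ℕ, ∑ r ∈ (Finset.range (s + 1)).filter (fun r => 31 * s + 900 < 100 * (r / 2)),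
    (s.choose r : ℝ) ≤ 2 ^ s / 10

/-- **Row TRS** (one trial; uses FPS MON GKM GCH). PROOF. FPS with R0 = s + 1 (no second sum):
V 0 l ≤ sum_r C(s,r) 2^(-s) X_r, k = r/2 (so 2k ≤ s), X_r = Kh or Gh of V (k+1) at l+s. By MON
(positions x = l + s + o, o ≥ 1) X_r ≤ Y always (mass ≤ 1, Y ≥ 0), and X_r ≤ (1 - 9γ/10) Y if
100 k ≤ 31 s + 900 (GKM at l + s). By GCH the other r have total weight ≤ 1/10:
V 0 l ≤ Y - (9γ/10)(9/10) Y ≤ (1 - γ/2) Y. -/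
def TrsStmt : Prop :=
  ∀ (B s : ℕ) (V : ℕ → ℕ → ℝ) (l : ℕ) (Y γ : ℝ), 0 ≤ Y → 0 ≤ γ → γ ≤ 1 →
    (∀ k x, B < x → V k x = 0) → (∀ k x, V k x ≤ 1) →
    (∀ k x, 2 * k ≤ s → V k x ≤ Kh B (V (k + 1)) x) →
    (∀ k o, 2 * k ≤ s → 1 ≤ o → V (k + 1) (l + s + o) ≤ Y) →
    (∀ k o, 2 * k ≤ s → 1 ≤ o → 100 * k ≤ 31 * s + 900 → o ≤ 9 →
      V (k + 1) (l + s + o) ≤ (1 - γ) * Y) →
    V 0 l ≤ (1 - γ / 2) * Y

/-- **Row DVB** (basic facts on Dv; uses MON). PROOF. Induction on k. (1) 0 ≤ Dv ≤ 1 (factors in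
[0,1], mass ≤ 1). (2) support: Icc (l+2) B is empty. (3) drop the factor ≤ 1. (4) induction on P:
both sides for P + 1 are the same Kh-expression. For P = 0: if l ≤ B the factor is 1, otherwise
Dv m j l = 0 by (2). -/
def DvbStmt : Prop :=
  ∀ (B : ℕ) (d : ℝ) (b : ℕ → ℕ → Prop), 0 ≤ d → d ≤ 1 →
    (∀ k j l, 0 ≤ Dv B d b k j l ∧ Dv B d b k j l ≤ 1) ∧
    (∀ k j l, B < l → Dv B d b k j l = 0) ∧
    (∀ k j l, Dv B d b (k + 1) j l ≤ Kh B (Dv B d b k (j + 1)) l) ∧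
    (∀ (P m j : ℕ) (Y : ℝ), 0 ≤ Y → (∀ x, Dv B d b m (j + P) x ≤ Y) →
      ∀ l, Dv B d b (P + m) j l ≤ Dv B d b P j l * Y)

/-- **Row WST** (white step; uses MON). PROOF. Dv (k+1) j x ≤ sum over x' of the weights w(x')
times (1 - d [x' = x+3]) (Y + f x') ≤ Y sum w(x')(1 - d [x' = x+3]) + Kh B f x (f ≥ 0, d ≤ 1), and
sum w(x')(1 - d [x'=x+3]) ≤ 1 - d/4: if x + 3 ≤ B the mass is ≤ 1 and w(x+3) = 2/8; otherwise
the only possible x' is x + 2, mass ≤ 1/4 ≤ 1 - d/4. -/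
def WstStmt : Prop :=
  ∀ (B : ℕ) (d : ℝ) (b : ℕ → ℕ → Prop) (k j x : ℕ) (Y : ℝ) (f : ℕ → ℝ), 0 ≤ d → d ≤ 1 → 0 ≤ Y →
    (∀ x', 0 ≤ f x') → ¬ b (j + 1) (x + 3) →
    (∀ x', x < x' → Dv B d b k (j + 1) x' ≤ Y + f x') →
    Dv B d b (k + 1) j x ≤ (1 - d / 4) * Y + Kh B f x

/-- **Row GWH** (a good exit is followed by a white point; uses LAM). PROOF. s = q.2 - l ≥ 3 (from
l + 3 ≤ q.2). Let w be as in LAM: lam w ≤ s - 3, 31 s ≤ 100 w + 195. For every integer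
j'' in [j+1, j+1+w]: Tri q (t q) j'' q.2, as q.1 ≤ j+1 ≤ j'' and
lam (j'' - q.1) ≤ lam (j+1-q.1) + lam w ≤ lam (j+1-q.1) + (q.2 - (l+3)) ≤ t q. If k + 1 ≤ w take
j'' = j + k + 2, otherwise j'' = j + 1 + w; then 0 ≤ j + k + 2 - j'' ≤ 12 because
100 k ≤ 31 s + 900 ≤ 100 w + 1095, k ≤ w + 10. If (j+k+2, q.2+o+3) were black, it would be
at distance ≤ 12 from (j'', q.2) (o + 3 ≤ 12), so in the triangle of q by `sep`; but its second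
coordinate is > q.2. -/
def GwhStmt : Prop :=
  ∀ (h : ℕ) (b : ℕ → ℕ → Prop) (Q : Set (ℕ × ℕ)) (t : ℕ × ℕ → ℝ), TSys h b Q t →
    ∀ (q : ℕ × ℕ) (j l k o : ℕ), q ∈ Q → Tri q (t q) (j + 1) (l + 3) →
      100 * k ≤ 31 * (q.2 - l) + 900 → 1 ≤ o → o ≤ 9 → ¬ b (j + k + 2) (q.2 + o + 3)

/-- **Row DSJ** (triangles are disjoint). PROOF. Claim: Tri q (t q) at (j,l), Tri q' (t q') at (j,l)
imply Tri q (t q) q'.1 q'.2. Walk from (j,l) up to (j, q'.2) and then left to (q'.1, q'.2) by unit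
steps; all points are in the triangle of q' (the linear form decreases), hence black (`sub`), and
by `sep` (distance ≤ 1) each one is in the triangle of q, by induction. So q.1 ≤ q'.1 and
q'.2 ≤ q.2; by symmetry q = q'. -/
def DsjStmt : Prop :=
  ∀ (h : ℕ) (b : ℕ → ℕ → Prop) (Q : Set (ℕ × ℕ)) (t : ℕ × ℕ → ℝ), TSys h b Q t →
    ∀ (q q' : ℕ × ℕ) (j l : ℕ), q ∈ Q → q' ∈ Q → Tri q (t q) j l → Tri q' (t q') j l → q = q'

/-- **Row CLU** (clusters; uses LAM DSJ). PROOF. Let x = q.2 + y, and q1, q2 ∈ Q the triangles of the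
two bad points: Tri qi (t qi) (Ji+1) (x+3), x + 4β < qi.2. Case q1 = q2: if lam (J2-J1) ≥ y + 3 then
Tri q1 (t q1) (J1+1) q.2: the form is lam (J1+1-q1.1) + (q1.2-q.2) ≤
lam (J1+1-q1.1) + (q1.2-(x+3)) + lam (J2-J1) = lam (J2+1-q1.1) + (q1.2-(x+3)) ≤ t q1 and
q.2 ≤ q1.2. So (J1+1, q.2) is black (`sub`). As in GWH there is j'' ∈ [j+1, j+1+w] with
Tri q (t q) j'' q.2 and |J1 + 1 - j''| ≤ 12 (J1 - j ≤ w: j'' = J1 + 1; otherwise j'' = j+1+w and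
100 (J1-j) ≤ 31 s + 1000 ≤ 100 w + 1195, J1 - j - w ≤ 11). By `sep` (J1+1, q.2) is in the triangle
of q, by DSJ q1 = q, but q.2 ≤ x < q1.2, contradiction. So lam (J2-J1) < y + 3, and lam ≥ 1 gives
J2 < J1 + (y+3). Case q1 ≠ q2: suppose J2 ≤ J1 + β. u = ceil(lam (J2-J1)) ≤ 3.17 β + 1 ≤ 4β - 2
(β ≥ 4). The point (J2+1, x+3+u) has x + 3 + u ≤ x + 4β + 1 ≤ q1.2, q2.2; it is in the triangle
of q2 (above (J2+1, x+3)) and of q1 (form: + lam (J2-J1) - u ≤ 0 compared to (J1+1, x+3)).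
DSJ: q1 = q2, contradiction. -/
def CluStmt : Prop :=
  ∀ (h : ℕ) (b : ℕ → ℕ → Prop) (Q : Set (ℕ × ℕ)) (t : ℕ × ℕ → ℝ), TSys h b Q t →
    ∀ (q : ℕ × ℕ) (j l y β J1 J2 : ℕ), q ∈ Q → Tri q (t q) (j + 1) (l + 3) → 4 ≤ β →
      j ≤ J1 → 100 * (J1 - j) ≤ 31 * (q.2 - l) + 1000 → J1 < J2 →
      badE Q t (4 * β) J1 (q.2 + y) → badE Q t (4 * β) J2 (q.2 + y) →
      J2 < J1 + (y + 3) ∨ J1 + β < J2

/-- **Row TLM** (translates). PROOF. R = c/a + 1 (natural division). For i < R let S_i be the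
translate of S by i a. They are pairwise disjoint: x + i a = y + i' a with i' < i gives
y - x = (i-i') a, at least a and at most (R-1) a ≤ c, contradiction with the gap property
(`x < y`). So sum_(i<R) sum_(x∈S) q(x + i a) ≤ 1 (a finite set of positions). And
q(x) ≤ q(x+τ) + sum_(x ≤ k < x+τ) |q(k+1)-q(k)|, so
sum_(x∈S) q(x) ≤ sum_(x∈S) q(x+τ) + τ V (each k is counted at most τ times: for each
i < τ the numbers x + i, x ∈ S, are distinct). Sum over τ = i a, i < R: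
R q(S) ≤ 1 + V a R (R-1)/2, so q(S) ≤ 1/R + V (R-1) a/2 ≤ a/c + c V (R ≥ c/a, (R-1) a ≤ c). -/
def TlmStmt : Prop :=
  ∀ (q : ℕ → ℝ) (S : Finset ℕ) (a c : ℕ) (V : ℝ), 1 ≤ a → a ≤ c → (∀ k, 0 ≤ q k) →
    (∀ n, ∑ k ∈ Finset.range n, q k ≤ 1) →
    (∀ n, ∑ k ∈ Finset.range n, |q (k + 1) - q k| ≤ V) →
    (∀ x ∈ S, ∀ y ∈ S, x < y → y < x + a ∨ x + c < y) →
    ∑ x ∈ S, q x ≤ (a : ℝ) / c + c * V

/-- **Row BIU** (variation of the binomial weights). PROOF. q(k) = C(s,2k+e) 2^(-s). Sum ≤ 1: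
distinct r = 2k + e. (i) C(s,r) ≤ 2^s/sqrt(s+1) for all r: C(s,r) ≤ C(s, s/2)
(`Nat.choose_le_middle`), and C(2n,n)^2 (2n+1) ≤ 16^n by induction
(C(2n+2,n+1) = C(2n,n) * 2(2n+1)/(n+1), and (2n+1)(2n+3) ≤ 4 (n+1)^2); for s = 2n+1:
C(2n+1,n) = C(2n+2,n+1)/2. (ii) q is unimodal: C(s,r) is a nonincreasing function of |2r-s|
(for r < s/2 `Nat.choose_le_succ_of_lt_half_left`, symmetry), so q(k) ≤ q(k+1) if
2(2k+e)+2 ≤ s and q(k+1) ≤ q(k) otherwise. So the variation is ≤ 2 max q ≤ 2/sqrt(s+1). -/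
def BiuStmt : Prop :=
  ∀ (s e : ℕ), e ≤ 1 →
    (∀ n, ∑ k ∈ Finset.range n, (s.choose (2 * k + e) : ℝ) * (1 / 2 : ℝ) ^ s ≤ 1) ∧
    (∀ n, ∑ k ∈ Finset.range n, |(s.choose (2 * (k + 1) + e) : ℝ) * (1 / 2 : ℝ) ^ s
      - (s.choose (2 * k + e) : ℝ) * (1 / 2 : ℝ) ^ s| ≤ 2 / Real.sqrt (s + 1))

open Classical in
/-- **Row BEX** (probability of a bad point at time i; uses CLU TLM BIU HOE). PROOF. s = q.2 - l,
r = 2k + e, J1 = j + k + 1 + i. S = the k with 2k + e ≤ s, badE at (j+k+1+i, q.2+y) and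
100 (k+1+i) ≤ 31 s + 1000. By CLU two elements k < k' of S satisfy k' < k + (y+3) or k + β < k'.
If y + 3 ≤ β: TLM and BIU give weight of S ≤ (y+3)/β + β * 2/sqrt(s+1); otherwise (y+3)/β ≥ 1 is
at least the weight. The other k satisfy 100 (k+1+i) > 31 s + 1000, so
2r - s ≥ 4k - s > 0.24 s + 36 - 4i ≥ 0.12 s (as 0.12 s ≥ 4i, from 40 (i+1) ≤ s); by HOE with
u = 0.12 s their weight is at most exp(-0.0072 s) ≤ exp(-s/200). -/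
def BexStmt : Prop :=
  ∀ (h : ℕ) (b : ℕ → ℕ → Prop) (Q : Set (ℕ × ℕ)) (t : ℕ × ℕ → ℝ), TSys h b Q t →
    ∀ (q : ℕ × ℕ) (j l y β i e : ℕ), q ∈ Q → Tri q (t q) (j + 1) (l + 3) → 4 ≤ β → e ≤ 1 →
      40 * (i + 1) ≤ q.2 - l →
      ∑ r ∈ (Finset.range (q.2 - l + 1)).filter (fun r => r % 2 = e),
        ((q.2 - l).choose r : ℝ) * (1 / 2 : ℝ) ^ (q.2 - l) *
          (if badE Q t (4 * β) (j + r / 2 + 1 + i) (q.2 + y) then 1 else 0)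
      ≤ ((y : ℝ) + 3) / β + 2 * β / Real.sqrt ((q.2 - l : ℕ) + 1)
        + Real.exp (-(((q.2 - l : ℕ) : ℝ) / 200))

/-- **Row FPB** (uses MON MOM). PROOF. FPE B s (s+1) of V k x = (Kh B)^[i] (f (j+k+i)) x is
sum_r w_r Kh B ((Kh B)^[i] (f (j+r/2+1+i))) (l+s) over even r plus the same with the outer Gh over
odd r. By linearity (MON; finite sums) the even part is (Kh B)^[i+1] F_0 (l+s) and the odd part
Gh B ((Kh B)^[i] F_1) (l+s), F_e x = sum_(r = e mod 2) w_r f (j+r/2+1+i) x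
≤ α (x-(l+s)) + β for x ≥ l+s. Monotonicity and MOM (i+1 times, y0 = l+s; the iterates at points
≥ l+s only use points ≥ l+s): even part ≤ α 4(i+1) + β, odd part ≤ α (4i+2) + β. -/
def FpbStmt : Prop :=
  ∀ (B s i j l : ℕ) (f : ℕ → ℕ → ℝ) (α β : ℝ), (∀ a x, 0 ≤ f a x) → 0 ≤ α → 0 ≤ β →
    (∀ e x, e ≤ 1 → l + s ≤ x →
      ∑ r ∈ (Finset.range (s + 1)).filter (fun r => r % 2 = e),
        (s.choose r : ℝ) * (1 / 2 : ℝ) ^ s * f (j + r / 2 + 1 + i) x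
        ≤ α * ((x : ℝ) - (l + s : ℕ)) + β) →
    FPE B s (s + 1) (fun k x => (Kh B)^[i] (f (j + k + i)) x) l ≤ 2 * (α * (4 * i + 4) + β)

open Classical in
/-- **Row CNE** (uses MON). PROOF. Induction on P (for all i, j, l): linearity of Kh over the finite
sum, and (Kh B)^[i'+1] f = Kh B ((Kh B)^[i'] f) (`Function.iterate_succ'`). -/
def CneStmt : Prop :=
  ∀ (B : ℕ) (β : ℕ → ℕ → ℕ → Prop) (P i j l : ℕ),
    Cn B β P i j l = ∑ i' ∈ Finset.range P,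
      (Kh B)^[i'] (fun x => if β (i + i') (j + i') x ∧ x ≤ B then (1 : ℝ) else 0) l

/-- **Row TRI** (trials; uses MON DVB WST GWH TRS). PROOF. PR g R is monotone in i (induction, g
monotone). Write β i = badE Q t (g i), ρ = 1 - d/8. Induction on R. R = 0: Dv ≤ 1, Cn ≥ 0.
R + 1: P ≥ g i + 2 + PR g R (i + g i + 2). If B < l then Dv = 0. If β i j l: Cn ≥ 1 ≥ Dv. If
¬ b (j+1) (l+3): WST with k = P-1, Y = ρ^R, f = Cn (P-1) (i+1) (j+1) (induction hypothesis at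
i + 1), result (1-d/4) ρ^R + Kh f l ≤ ρ^(R+1) + Cn P i j l. Otherwise `cover` gives q' ∈ Q with
Tri q' (t q') (j+1) (l+3), and q'.2 ≤ l + g i as the point is not bad; s = q'.2 - l ≤ g i.
V k x := Dv (P-k) (j+k) x - Cn (P-k) (i+k) (j+k) x. It vanishes for x > B, is ≤ 1, and for k < P
(2k ≤ s ≤ g i implies k + 1 ≤ P - 1) V k x ≤ Kh B (V (k+1)) x: DVB (3) and
Cn (n+1) i j x ≥ Kh B (Cn n (i+1) (j+1)) x. Exits, x = l+s+o: V (k+1) x ≤ ρ^R by the induction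
hypothesis at i+k+1 with budget P-k-1 ≥ PR g R (i+k+1) (k + 1 ≤ g i + 1, monotone). If
100 k ≤ 31 s + 900, o ≤ 9: ¬ b (j+k+2) (x+3) (GWH), and WST at (j+k+1, x) with P-k-2, Y = ρ^R,
f = Cn (P-k-2) (i+k+2) (j+k+2): Dv (P-k-1) (j+k+1) x ≤ (1-d/4) ρ^R + Kh f x
≤ (1-d/4) ρ^R + Cn (P-k-1) (i+k+1) (j+k+1) x. So V (k+1) x ≤ (1-d/4) ρ^R, and TRS with γ = d/4
gives V 0 l ≤ (1-d/8) ρ^R. -/
def TriStmt : Prop :=
  ∀ (h : ℕ) (b : ℕ → ℕ → Prop) (Q : Set (ℕ × ℕ)) (t : ℕ × ℕ → ℝ) (B : ℕ) (d : ℝ) (g : ℕ → ℕ),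
    TSys h b Q t → 0 ≤ d → d ≤ 1 → Monotone g →
    ∀ R i P j l, PR g R i ≤ P →
      Dv B d b P j l ≤ (1 - d / 8) ^ R + Cn B (fun i j l => badE Q t (g i) j l) P i j l

/-- **Row WHT** (after the exit from a large triangle; uses MON DVB BEX FPB CNE TRI). PROOF. Choose
R with (1-d/8)^R ≤ η/3, a natural number G ≥ max(4, 84/η), β_i = G (i+1)^3, g i = 4 β_i,
P = PR g R 0, and s0 ≥ 40 (P+1) such that for s ≥ s0:
2 P (2 β_P/sqrt(s+1) + exp(-s/200)) ≤ η/3. By TRI Dv P (j+k) x ≤ (1-d/8)^R + Cn P 0 (j+k) x, and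
FPE is monotone and linear with mass ≤ 1, so the left side is at most η/3 + sum_(i<P) T_i (CNE),
T_i = FPE B s (s+1) (fun k x => (Kh B)^[i] (ind_i (j+k+i)) x) l with
ind_i a x = 1 if badE Q t (4 β_i) a x and x ≤ B, otherwise 0. BEX (x = q.2 + y = l + s + y) gives
the hypothesis of FPB with α = 1/β_i and β = 3/β_i + 2β_i/sqrt(s+1) + exp(-s/200), so
T_i ≤ 2 ((4i+7)/β_i + 2β_i/sqrt(s+1) + exp(-s/200)) and
sum_(i<P) 2 (4i+7)/β_i ≤ sum_i 14/(G (i+1)^2) ≤ 28/G ≤ η/3. -/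
def WhtStmt : Prop :=
  ∀ (d η : ℝ), 0 < d → d ≤ 1 → 0 < η → ∃ P s0 : ℕ,
    ∀ (h : ℕ) (b : ℕ → ℕ → Prop) (Q : Set (ℕ × ℕ)) (t : ℕ × ℕ → ℝ) (B : ℕ), TSys h b Q t →
      ∀ (q : ℕ × ℕ) (j l : ℕ), q ∈ Q → Tri q (t q) (j + 1) (l + 3) → s0 ≤ q.2 - l →
        FPE B (q.2 - l) (q.2 - l + 1) (fun k x => Dv B d b P (j + k) x) l ≤ η

/-- **Row DCS** (white points and small triangles; uses DVB WST GWH TRS). PROOF. κ = d/(16 (A+1)).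
White case: WST with f = 0, Y = C/m^A (IH for m - 1): Dv m j l ≤ (1-d/4) C/m^A ≤ C/(m+1)^A if
m ≥ m0, because ((m+1)/m)^A ≤ exp(A/m) ≤ 1 + d/4 ≤ 1/(1-d/4) (A/m ≤ d/8 is enough).
Triangle with s = q.2 - l ≤ κ m: V k x = Dv (m-k) (j+k) x, Y = C/(m - s/2 - 1)^A (s/2 natural
division; m - s/2 - 1 ≥ 1). Hypotheses of TRS: DVB; exits: 2k ≤ s, V (k+1) x ≤ C/(m-k)^A ≤ Y (IH
for m-k-1); good exits: ¬ b (j+k+2) (x+3) by GWH (x = q.2 + o), WST (f = 0) with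
Dv (m-k-2) (j+k+2) ≤ C/(m-k-1)^A ≤ Y: V (k+1) x ≤ (1-d/4) Y. TRS: Dv m j l ≤ (1-d/8) Y. And
(m+1) (1-κ) ≤ m - s/2 - 1 (for m ≥ 8/κ), so Y ≤ C (1-κ)^(-A)/(m+1)^A, and
(1-κ)^A ≥ 1 - κ A ≥ 1 - d/8 (Bernoulli). -/
def DcsStmt : Prop :=
  ∀ (d : ℝ) (A : ℕ), 0 < d → d ≤ 1 → ∃ m0 : ℕ, 1 ≤ m0 ∧
    ∀ (h : ℕ) (b : ℕ → ℕ → Prop) (Q : Set (ℕ × ℕ)) (t : ℕ × ℕ → ℝ) (B j l m : ℕ) (C : ℝ),
      TSys h b Q t → m0 ≤ m → 0 ≤ C →
      (∀ m' x, m' < m → Dv B d b m' (j + (m - m')) x ≤ C / ((m' : ℝ) + 1) ^ A) →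
      (¬ b (j + 1) (l + 3) ∨ ∃ q ∈ Q, Tri q (t q) (j + 1) (l + 3) ∧
        ((q.2 - l : ℕ) : ℝ) ≤ d / (16 * (A + 1)) * m) →
      Dv B d b m j l ≤ C / ((m : ℝ) + 1) ^ A

/-- **Row DCL** (large triangles; uses LAM MON FPS HOE DVB WHT). PROOF. Let η = 60^(-A)/4, P, s0 from
WHT, κ = d/(16 (A+1)), s = q.2 - l > κ m ≥ s0 for m ≥ m0. (1) With w from LAM
Tri q (t q) (j+1+w) q.2 (as in GWH), so j + 1 + w ≤ h = j + m (`sub`), w ≤ m - 1 and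
31 s ≤ 100 w + 195 ≤ 100 m + 95. (2) R0 = the least integer ≥ 0.6 s. If 2k < R0 then
k < 0.3 s + 1/2 ≤ 0.968 m + 1.42, so m - k - 1 - P ≥ (m+1)/60 for m ≥ m0 (in particular
k + 1 + P ≤ m). FPS for V k x = Dv (m-k) (j+k) x:
Dv m j l ≤ FPE B s R0 V l + weight of r ≥ R0. HOE (u = 0.2 s): the weight is ≤ exp(-0.02 s)
≤ exp(-κ m/50) ≤ 1/(2 (m+1)^A) for m ≥ m0. (3) For r < R0, k = r/2, DVB (4):
Dv (m-k-1) (j+k+1) x ≤ Dv P (j+k+1) x * C/(m-k-P)^A ≤ Dv P (j+k+1) x * C 60^A/(m+1)^A (IH with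
m' = m-k-1-P). So FPE B s R0 V l ≤ C 60^A/(m+1)^A * FPE B s (s+1) (Dv P (j+.)) l
≤ (C/(m+1)^A) * 60^A η = C/(4 (m+1)^A) (terms nonnegative: dropping the cutoff increases FPE).
Sum: ≤ (1/4 + 1/2) C/(m+1)^A as C ≥ 1. -/
def DclStmt : Prop :=
  ∀ (d : ℝ) (A : ℕ), 0 < d → d ≤ 1 → ∃ m0 : ℕ, 1 ≤ m0 ∧
    ∀ (h : ℕ) (b : ℕ → ℕ → Prop) (Q : Set (ℕ × ℕ)) (t : ℕ × ℕ → ℝ) (B j l m : ℕ) (C : ℝ),
      TSys h b Q t → m0 ≤ m → j + m = h → 1 ≤ C →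
      (∀ m' x, m' < m → Dv B d b m' (j + (m - m')) x ≤ C / ((m' : ℝ) + 1) ^ A) →
      ∀ q ∈ Q, Tri q (t q) (j + 1) (l + 3) → d / (16 * (A + 1)) * m < ((q.2 - l : ℕ) : ℝ) →
      Dv B d b m j l ≤ C / ((m : ℝ) + 1) ^ A

/-- **Row DEC** (uses DVB DCS DCL). PROOF. m0 the maximum of the two, C = (m0+1)^A ≥ 1. Strong
induction on m with j + m = h: if m < m0 then Dv ≤ 1 ≤ C/(m+1)^A. Otherwise: if ¬ b (j+1) (l+3)
DCS; otherwise `cover` gives q, and DCS or DCL according to q.2 - l ≤ κ m or not. -/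
def DecStmt : Prop :=
  ∀ (d : ℝ) (A : ℕ), 0 < d → d ≤ 1 → ∃ C : ℝ, 1 ≤ C ∧
    ∀ (h : ℕ) (b : ℕ → ℕ → Prop) (Q : Set (ℕ × ℕ)) (t : ℕ × ℕ → ℝ) (B j l m : ℕ),
      TSys h b Q t → j + m = h → Dv B d b m j l ≤ C / ((m : ℝ) + 1) ^ A

end Pool.Agent.WIR
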