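import Pool.Agent.WIR.Defs

/-!
WIR, block A: the triangle system (only arithmetic in `ZMod (3^N)`).
The docstrings contain the complete proofs.
-/

namespace Pool.Agent.WIR

open scoped BigOperators

/-- **Row TXM** (exact multiplication). PROOF. `ZMod.valMinAbs_spec`: with m = valMinAbs y the
integer c m is congruent to c y and -3^N < 2 c m <= 3^N because 2 c |m| < 3^N. Second part: the
same with an integer z in place of c m. -/
def TxmStmt : Prop :=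
  (∀ (N c : ℕ) (y : ZMod (3 ^ N)), 2 * (c : ℤ) * |y.valMinAbs| < 3 ^ N →
    ((c : ZMod (3 ^ N)) * y).valMinAbs = c * y.valMinAbs) ∧
  (∀ (N : ℕ) (y : ZMod (3 ^ N)) (z : ℤ), 2 * |z| < 3 ^ N → y = (z : ZMod (3 ^ N)) →
    y.valMinAbs = z)

/-- **Row TNZ**. PROOF. e = t + 2j - 2, u = 2 ξ 2^(-l) is a unit of Z/3^N (2 is a unit as 3^N is
odd, its inverse is `2⁻¹`, `ZMod.coe_mul_inv_eq_one`), res = 3^e u. If N ≤ e then 3^e = 0 in
Z/3^N, so res = 0, mm = 0. If e < N: res = 0 would give 3^e = 0 in Z/3^N, 3^N ∣ 3^e, false; and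
mm - 3^e (u.val) is divisible by 3^N (its class is res - 3^e u = 0), hence by 3^e. -/
def TnzStmt : Prop :=
  ∀ (N t : ℕ) (ξ : ZMod (3 ^ N)) (j l : ℕ), IsUnit ξ → 1 ≤ j →
    (t + 2 * j - 2 < N → mm N t ξ j l ≠ 0 ∧ (3 : ℤ) ^ (t + 2 * j - 2) ∣ mm N t ξ j l) ∧
    (N ≤ t + 2 * j - 2 → mm N t ξ j l = 0)

/-- **Row TMV** (moves to the right and down are exact; uses TXM). PROOF. For j ≥ 1
res (j+a) l = 9^a 2^b res j (l+b), as t + 2(j+a) - 2 = (t + 2j - 2) + 2a and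
2^b (2⁻¹)^(l+b) = (2⁻¹)^l (2 * 2⁻¹ = 1). Now TXM with c = 9^a 2^b. -/
def TmvStmt : Prop :=
  ∀ (N t : ℕ) (ξ : ZMod (3 ^ N)) (j l a b : ℕ), 1 ≤ j →
    2 * ((9 : ℤ) ^ a * 2 ^ b) * |mm N t ξ j (l + b)| < 3 ^ N →
    mm N t ξ (j + a) l = 9 ^ a * 2 ^ b * mm N t ξ j (l + b)

/-- **Row TDV** (halving; uses TXM second part). PROOF. res j (l+b) = res j l (2⁻¹)^b
= (2^b z) (2⁻¹)^b = z in Z/3^N (`ZMod.coe_valMinAbs` for res j l = mm j l). -/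
def TdvStmt : Prop :=
  ∀ (N t : ℕ) (ξ : ZMod (3 ^ N)) (j l b : ℕ) (z : ℤ), 2 * |z| < 3 ^ N →
    mm N t ξ j l = 2 ^ b * z → mm N t ξ j (l + b) = z

/-- corners: black, odd residue, and the left neighbour is not black. -/
def Cor (N t : ℕ) (ξ : ZMod (3 ^ N)) (h : ℕ) : Set (ℕ × ℕ) :=
  {q | bk N t ξ h q.1 q.2 ∧ Odd (mm N t ξ q.1 q.2) ∧ (q.1 = 1 ∨ ¬ bk N t ξ h (q.1 - 1) q.2)}

/-- size of the triangle at a corner. -/
noncomputable def siz (N t : ℕ) (ξ : ZMod (3 ^ N)) (q : ℕ × ℕ) : ℝ :=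
  Real.logb 2 (eps * 3 ^ N / |(mm N t ξ q.1 q.2 : ℝ)|)

/-- **Row TCV** (every black point has a corner; uses TNZ, TMV, TDV). PROOF. t + 2j - 2 ≤ N - 2 < N
because j ≤ h, so m = mm j l <> 0 (TNZ). (1) Let 2^v be the exact power of 2 dividing m,
ls = l + v, m = 2^v z, z odd. TDV: mm j ls = z and |z| ≤ |m|, so (j, ls) is black with odd
residue, mm j l = 2^(ls-l) mm j ls. (2) Claim: for every black (j, ls) with odd residue there is a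
corner (js, ls) with js ≤ j and mm j ls = 9^(j-js) mm js ls. Induction on j: if j = 1 or
(j-1, ls) is not black, take js = j. Otherwise (j-1, ls) is black, TMV (a = 1, b = 0;
2 * 9 * eps < 1) gives mm j ls = 9 mm (j-1) ls, so mm (j-1) ls is odd; apply the claim to
j - 1. -/
def TcvStmt : Prop :=
  ∀ (N t : ℕ) (ξ : ZMod (3 ^ N)) (h j l : ℕ), IsUnit ξ → t + 2 * h ≤ N → bk N t ξ h j l →
    ∃ q ∈ Cor N t ξ h, q.1 ≤ j ∧ l ≤ q.2 ∧
      mm N t ξ j l = 9 ^ (j - q.1) * 2 ^ (q.2 - l) * mm N t ξ q.1 q.2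

/-- **Row TSZ** (meaning of the size). PROOF. x = |m|, m an integer, m <> 0, T = eps 3^N > 0:
|9^a 2^b m| ≤ T iff 9^a 2^b ≤ T/x iff (logarithm to base 2, increasing; `Real.logb_pow`,
lam = logb 2 9) a lam + b ≤ logb 2 (T/x). Here a = j - q.1, b = q.2 - l (casts of natural
subtractions, q.1 ≤ j and l ≤ q.2). -/
def TszStmt : Prop :=
  ∀ (N : ℕ) (q : ℕ × ℕ) (j l : ℕ) (m : ℤ), m ≠ 0 → q.1 ≤ j → l ≤ q.2 →
    (|((9 ^ (j - q.1) * 2 ^ (q.2 - l) * m : ℤ) : ℝ)| ≤ eps * 3 ^ N ↔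
      Tri q (Real.logb 2 (eps * 3 ^ N / |(m : ℝ)|)) j l)

/-- **Row TSB** (points of a triangle are black, and the triangle ends at `h`; uses TNZ, TMV, TSZ).
PROOF. q is black, so 1 ≤ q.1 ≤ h, t + 2 q.1 - 2 < N, m = mm q <> 0 (TNZ). By TSZ
|9^a 2^b m| ≤ eps 3^N with a = j - q.1, b = q.2 - l; as 2 eps < 1 the product 2 * 9^a 2^b |m| is
< 3^N (integers), and TMV (from j := q.1, l := l, q.2 = l + b) gives mm j l = 9^a 2^b m. So
|mm j l| ≤ eps 3^N. Also mm j l <> 0, so by TNZ (second part) e = t + 2j - 2 < N, and 3^e divides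
mm j l, 3^e ≤ |mm j l| ≤ eps 3^N, in particular e + 2 ≤ N (otherwise e = N - 1 and
3^(N-1) ≤ eps 3^N < 3^(N-1)), that is t + 2 j ≤ N. If j > h then h = (N-t)/2 is at least j,
contradiction. -/
def TsbStmt : Prop :=
  ∀ (N t : ℕ) (ξ : ZMod (3 ^ N)) (j l : ℕ) (q : ℕ × ℕ), IsUnit ξ → t ≤ N →
    q ∈ Cor N t ξ ((N - t) / 2) → Tri q (siz N t ξ q) j l →
    mm N t ξ j l = 9 ^ (j - q.1) * 2 ^ (q.2 - l) * mm N t ξ q.1 q.2 ∧
      bk N t ξ ((N - t) / 2) j l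

/-- **Row TSP** (separation; uses TNZ, TMV, TDV, TSZ, TSB). PROOF. Write m(P) = mm at P, h = (N-t)/2,
P = (j,l), P' = (j',l'). By TSB m(P) = 9^(j-q.1) 2^(q.2-l) m(q) and |m(P)|, |m(P')| ≤ eps 3^N,
all nonzero (TNZ; P, P' black). Let J = (max j j', min l l'). By TMV (18^12 * 2 * eps < 1)
m(J) = 9^(max-j) 2^(l-min) m(P) = 9^(max-j') 2^(l'-min) m(P').            (*)
(a) l' ≤ q.2. m(q) is odd, so the 2-adic valuation of the left side of (*) is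
(l - min) + (q.2 - l) = q.2 - min, and that of the right side is at least l' - min.
(b) q.1 ≤ j'. Suppose j' < q.1 (≤ j); then max = j and (*) reads, after cancelling 9^(j-q.1) and
2^(l'-min) (nonzero integers, l' ≤ q.2): 2^(q.2-l') m(q) = 9^(q.1-j') m(P'). So 9^(q.1-j')
divides m(q) (coprime to 2^..); write m(q) = 9 z (q.1 - j' ≥ 1) ; and
2^(q.2-l') z = 9^(q.1-1-j') m(P'). Now mm (q.1-1) l' = 9^(q.1-1-j') m(P') by TMV (a = q.1-1-j',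
b = 0, |9^a m(P')| = 2^(q.2-l') |z|, and 9^a ≤ 9^12: 2 * 9^12 * eps < 1), which equals
2^(q.2-l') z; TDV (b = q.2 - l', |z| ≤ |m(q)|) gives mm (q.1-1) q.2 = z, |z| ≤ |m(q)| ≤ eps 3^N,
and 1 ≤ j' ≤ q.1 - 1: the point (q.1-1, q.2) is black; contradiction with q ∈ Cor.
(c) Now q.1 ≤ j', l' ≤ q.2; (*) gives m(P') = 9^(j'-q.1) 2^(q.2-l') m(q) (cancel; exponents:
(max - j) + (j - q.1) = max - q.1 etc.), so |9^(j'-q.1) 2^(q.2-l') m(q)| ≤ eps 3^N and TSZ gives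
the claim. -/
def TspStmt : Prop :=
  ∀ (N t : ℕ) (ξ : ZMod (3 ^ N)) (j l j' l' : ℕ) (q : ℕ × ℕ), IsUnit ξ → t ≤ N →
    q ∈ Cor N t ξ ((N - t) / 2) → Tri q (siz N t ξ q) j l → bk N t ξ ((N - t) / 2) j' l' →
    j' ≤ j + 12 → j ≤ j' + 12 → l' ≤ l + 12 → l ≤ l' + 12 → Tri q (siz N t ξ q) j' l'

/-- **Row TSY** (uses TNZ, TCV, TSZ, TSB, TSP). PROOF. cover: TCV and TSZ (|mm j l| ≤ eps 3^N);
sub: TSB (bk contains j ≤ h); sep: TSP. -/
def TsyStmt : Prop :=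
  ∀ (N t : ℕ) (ξ : ZMod (3 ^ N)), IsUnit ξ → t ≤ N →
    TSys ((N - t) / 2) (bk N t ξ ((N - t) / 2)) (Cor N t ξ ((N - t) / 2)) (siz N t ξ)

end Pool.Agent.WIR
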