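import Pool.Agent.WIR.DefsE

/-!
WIR, block E: coding, low frequencies, limit density, Haar measure, final theorem.
The docstrings contain the complete proofs. Rows of blocks A-D may be taken as hypotheses
(`HfrStmt`, `HoeStmt`, `PrjStmt`).
-/

namespace Pool.Agent.WIR

open scoped BigOperators ENNReal Topology
open Filter MeasureTheory

/-! ### coding -/

/-- **Row CDT** (recursion on the map side). PROOF. M = 0: the set is {a} if l = 0, otherwise empty.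
M + 1: T^[M+1] b = T (T^[M] b), c = T^[M] b > 0. T c = a iff c = 2a, or c is odd and 3c + 1 = 2a,
that is 3 ∣ 2a - 1 and c = (2a-1)/3 (then c is odd since 2a - 1 is odd, and c > 0 since 3 does not
divide 1). The index i = M counts iff c is odd. So the set is a disjoint union of the set for
(M, l, 2a) and the set for (M, l-1, (2a-1)/3). The sets are finite: T^[M] b = a > 0 implies
b ≤ 2^M a (T b ≥ b/2). -/
def CdtStmt : Prop :=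
  ∀ l a : ℕ, 0 < a → uT 0 l a = (if l = 0 then 1 else 0) ∧
    ∀ M : ℕ, uT (M + 1) 0 a = uT M 0 (2 * a) ∧
      uT (M + 1) (l + 1) a = uT M (l + 1) (2 * a)
        + (if 3 ∣ 2 * a - 1 then uT M l ((2 * a - 1) / 3) else 0)

/-- **Row CDR** (recursion on the side of the words). PROOF. M = 0: only O = ∅; FO l ∅ = 0. l = 0:
only O = ∅, ZMod (3^0) has one element. M + 1, l + 1: if 1 ∉ O, O = O' + 1 (shift),
O' ⊆ Icc 1 M, FO O = 2⁻¹ FO O', so FO O = a iff FO O' = 2a. If 1 ∈ O, O = {1} ∪ (O'+1), |O'| = l,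
FO (l+1) O = 2⁻¹ + 3 * 2⁻¹ FO (l+1) O'; it equals a iff 2a - 1 = 3 FO (l+1) O' in Z/3^(l+1), iff
3 ∣ 2a - 1 and FO l O' = (2a-1)/3 in Z/3^l (FO l O' is the projection of FO (l+1) O'). -/
def CdrStmt : Prop :=
  ∀ l : ℕ, (∀ y : ZMod (3 ^ l), cnt 0 {l} l y = (if l = 0 then 1 else 0)) ∧
    (∀ (M : ℕ) (y : ZMod (3 ^ 0)), cnt M {0} 0 y = 1) ∧
    ∀ M a : ℕ, 0 < a → cnt (M + 1) {l + 1} (l + 1) ((a : ℕ) : ZMod (3 ^ (l + 1)))
      = cnt M {l + 1} (l + 1) ((2 * a : ℕ) : ZMod (3 ^ (l + 1)))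
        + (if 3 ∣ 2 * a - 1 then cnt M {l} l (((2 * a - 1) / 3 : ℕ) : ZMod (3 ^ l)) else 0)

/-- **Row COD** (uses CDT, CDR). PROOF. Induction on M, for all l and a. -/
def CodStmt : Prop :=
  ∀ M l a : ℕ, 0 < a → uT M l a = cnt M {l} l ((a : ℕ) : ZMod (3 ^ l))

/-- **Row FLO**. PROOF. log_2(3/2) = log_2 3 - 1, so floor(l log_2(3/2)) + l = floor(l log_2 3)
= floor(log_2 (3^l)) = Nat.log 2 (3^l) (`Real.floor_logb_natCast` or `Nat.log` characterisation).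
Second part: 2^(Nat.log 2 x) ≤ x < 2^(Nat.log 2 x + 1). Third part: 3^50 ≥ 2^79 gives
3^l ≥ 2^(l * 79/50), Nat.log 2 (3^l) + 1 > 79 l/50 ; with l ≤ 10 n, n ≥ 2:
5 (n + 79 l/50 - 1) ≥ 5n + 7.9 l - 5 ≥ 8 l. Upper: 3^5 ≤ 2^8. -/
def FloStmt : Prop :=
  (∀ n l : ℕ, n + ⌊(l : ℝ) * Real.logb 2 (3 / 2)⌋₊ + l = Mz n l) ∧
  (∀ n l : ℕ, 2 ^ Mz n l ≤ 2 ^ n * 3 ^ l ∧ 2 ^ n * 3 ^ l < 2 ^ (Mz n l + 1)) ∧
  (∀ n l : ℕ, 2 ≤ n → l ≤ 10 * n → 8 * l ≤ 5 * Mz n l) ∧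
  (∀ n l : ℕ, 5 * Mz n l ≤ 5 * n + 8 * l)

/-- **Row APR** (uses COD). PROOF. eP l k x = uT (k+l) l (x.appr l + 3^l), the argument is positive
and its class mod 3^l is toZModPow l x (`PadicInt.appr_spec`, `toZModPow` is defined by appr). -/
def AprStmt : Prop :=
  ∀ (l k : ℕ) (x : ℤ_[3]), eP l k x = cnt (k + l) {l} l (PadicInt.toZModPow l x)

/-! ### low frequencies, finite level -/

/-- **Row TEL** (telescoping; uses HFR, PRJ). PROOF. HFR with exponent A + 2. For m ≤ N < l let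
f_N x = 3^N/3^l cnt M {l} N (pj N l x) on Z/3^l; pj N (N+1) (pj (N+1) l x) = pj N l x.
sum_x |f_(N+1) x - f_N x| = 3^(l-N-1) sum_(y ∈ Z/3^(N+1)) 3^(N+1)/3^l
|cnt M {l} (N+1) y - cnt M {l} N (pj y)/3| ≤ C/(N+1)^(A+2) 2^M (fibres of pj have 3^(l-N-1) elements;
8 (N+1) ≤ 8 l ≤ 5 M). f_l = cnt M {l} l. Sum over N ≥ m: sum 1/(N+1)^(A+2) ≤ 2/(m+1)^A. -/
def TelStmt : Prop :=
  ∀ A : ℕ, ∃ C : ℝ, 1 ≤ C ∧ ∀ m l M : ℕ, m ≤ l → 8 * l ≤ 5 * M →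
    ∑ x : ZMod (3 ^ l), |(cnt M {l} l x : ℝ) - 3 ^ m / 3 ^ l * (cnt M {l} m (pj m l x) : ℝ)|
      ≤ C / ((m : ℝ) + 1) ^ A * 2 ^ M

/-- **Row CUT** (cut at 3m; uses HOE). PROOF. O ↦ (O1, O2) = (O ∩ Icc 1 (3m), rest). If
r = |O1| ≥ m then FO m O = FO m O1 (for p > 3m the rank is ≥ m, 3^m = 0), and for given O1 there are
C(M-3m, l-r) sets O2. This gives the first part (r runs over Icc m (3m), r ≤ 3m ≤ l). Second part:
the remaining O have |O1| < m: at most 2^(M-3m) sum_(r<m) C(3m,r) ≤ 2^M exp(-m²/(6m)) by HOE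
(s = 3m, u = m; m = 0: none). -/
def CutStmt : Prop :=
  ∀ m l M : ℕ, 3 * m ≤ M → 3 * m ≤ l →
    (∀ z : ZMod (3 ^ m), ∑ r ∈ Finset.Icc m (3 * m), cnt (3 * m) {r} m z * (M - 3 * m).choose (l - r)
      ≤ cnt M {l} m z) ∧
    (∑ z : ZMod (3 ^ m), (cnt M {l} m z : ℝ)) - ∑ z : ZMod (3 ^ m), ∑ r ∈ Finset.Icc m (3 * m),
      (cnt (3 * m) {r} m z : ℝ) * ((M - 3 * m).choose (l - r) : ℝ)
      ≤ 2 ^ M * Real.exp (-((m : ℝ) / 6))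

/-- **Row KAP**. PROOF. a = 3m; r ≤ l, a - r ≤ M - l for m ≥ 3 (2l ≥ M - m^4 ≥ 6m, the same for
M - l). C(M-a,l-r) (M)_a = C(M,l) (l)_r (M-l)_(a-r) (falling factorials `Nat.descFactorial`;
write all in factorials). Upper bound: 2^a (l)_r (M-l)_(a-r) ≤ (2l)^r (2(M-l))^(a-r) ≤ (M+m^4)^a
and (M)_a ≥ (M-a)^a; ((M+m^4)/(M-3m))^(3m) ≤ exp(3m (m^4+3m)/(M-3m)) ≤ exp(24/m) (m^4 + 3m ≤ 4 m^4..,
M - 3m ≥ m^6/2). Lower bound: 2^a (l)_r (M-l)_(a-r) ≥ (M - m^4 - 2a)^a, (M)_a ≤ M^a, and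
(1 - (m^4+6m)/M)^(3m) ≥ 1 - 3m * 7m^4/m^6 = 1 - 21/m. -/
def KapStmt : Prop :=
  ∀ ε : ℝ, 0 < ε → ∃ m0 : ℕ, ∀ m M l r : ℕ, m0 ≤ m → m ^ 6 ≤ M →
    |2 * (l : ℤ) - M| ≤ (m : ℤ) ^ 4 → r ≤ 3 * m →
    |(2 : ℝ) ^ (3 * m) * ((M - 3 * m).choose (l - r) : ℝ) - (M.choose l : ℝ)|
      ≤ ε * (M.choose l : ℝ)

/-- **Row ULX** (uses TEL, CUT, KAP). PROOF. C independent of ε. Let c = C(M,l)/3^l. For m ≥ m0:
3m ≤ l, 3m ≤ M, m ≤ l. With a_r = cnt (3m) {r} m: W m z = 3^m/2^(3m) sum_(r=m..3m) a_r z. So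
|cnt M {l} l x - c W m (pj x)| ≤ A(x) + D(pj x) + |3^m/3^l sum_r a_r (C(M-3m,l-r) - 2^(-3m) C(M,l))|,
A(x) = |cnt M {l} l x - 3^m/3^l cnt M {l} m (pj x)|,
D(z) = 3^m/3^l (cnt M {l} m z - sum_r a_r z C(M-3m,l-r)) ≥ 0, and the last term is ≤ ε c W m (pj x)
by KAP. So the positive part is ≤ A(x) + D(pj x); sum_x A(x) ≤ C'/(m+1)^A 2^M (TEL),
sum_x D(pj m l x) = 3^(l-m) sum_z D(z) ≤ 2^M exp(-m/6) (CUT) ≤ C''/(m+1)^A 2^M. -/
def UlxStmt : Prop :=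
  ∀ A : ℕ, ∃ C : ℝ, 1 ≤ C ∧ ∀ ε : ℝ, 0 < ε → ∃ m0 : ℕ, ∀ m M l : ℕ, m0 ≤ m → m ^ 6 ≤ M →
    |2 * (l : ℤ) - M| ≤ (m : ℤ) ^ 4 → 8 * l ≤ 5 * M →
    ∑ x : ZMod (3 ^ l), max 0 (|(cnt M {l} l x : ℝ) - (M.choose l : ℝ) / 3 ^ l * W m (pj m l x)|
        - ε * ((M.choose l : ℝ) / 3 ^ l * W m (pj m l x)))
      ≤ C / ((m : ℝ) + 1) ^ A * 2 ^ M

/-- **Row TYB** (the mean values; uses HOE, FLO). PROOF. en n l ≤ 2^n C(Mz,l)/2^Mz (FLO)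
≤ 2^n exp(-(2l-Mz)²/(2 Mz)) (HOE, one term; Mz > 0). m = mn n: m^6 ≤ n < (m+1)^6 ≤ 64 m^6 for
n ≥ 1. (1) l ≤ 10n, l ∉ Ty n: |2l-Mz| ≥ m^4, Mz ≤ n + 1.6 * 10 n = 17n, exponent
≥ m^8/(34n) ≥ m²/2176, and 11 n exp(-m²/2176) ≤ C/(n+1)^4 as n < 64 m^6. (2) l > 10n:
Mz ≤ 1.6 l + n ≤ 1.7 l, 2l - Mz ≥ 0.3 l, exponent ≥ 0.09 l²/(3.4 l) ≥ l/40;
sum_(l>10n) exp(-l/40) ≤ C exp(-n/4) ≤ C'/(n+1)^4. This also proves summability. (3) Lower bound: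
the function l ↦ 2l - Mz n l starts at -n, its steps are 0 or 1
(Nat.log 2 (3^(l+1)) - Nat.log 2 (3^l) ∈ {1,2}) and it is ≥ 0.4 l - n, so it is 0 for some
l ≤ 5n/2 + 1..3n; for it en n l = C(2l,l)/3^l ≥ 4^l/((2l+1) 3^l) = 2^Mz/((2l+1) 3^l)
≥ 2^n/(2 (2l+1)) ≥ 2^n/(14 (n+1)) (`Nat.four_pow_le_two_mul_add_one_mul_central_binom`). -/
def TybStmt : Prop :=
  ∃ C : ℝ, ∀ n : ℕ, 1 ≤ n → Summable (en n) ∧ 2 ^ n / (14 * ((n : ℝ) + 1)) ≤ ∑' l, en n l ∧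
    ∑' l, (if l ∈ Ty n then 0 else en n l) ≤ C * 2 ^ n / ((n : ℝ) + 1) ^ 4

/-- **Row WEX** (extension; uses HOE). PROOF. Every O ⊆ Icc 1 M with |O| ≥ N extends in 2^(M'-M) ways
to a subset of Icc 1 M', with the same FO N (further elements have rank ≥ N). The other words
O ⊆ Icc 1 M' with |O| ≥ N have |O ∩ Icc 1 M| < N, their number is at most
2^(M'-M) sum_(r<N) C(M,r) ≤ 2^M' exp(-(M-2N)²/(2M)) (HOE, u = M - 2N ≥ M/3; N ≥ 1, for N = 0 there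
are none), and (M-2N)²/(2M) ≥ M/18 ≥ N/6. -/
def WexStmt : Prop :=
  ∀ N M M' : ℕ, 3 * N ≤ M → M ≤ M' →
    (∀ z : ZMod (3 ^ N), 2 ^ (M' - M) * cnt M (Set.Ici N) N z ≤ cnt M' (Set.Ici N) N z) ∧
    (∑ z : ZMod (3 ^ N), (cnt M' (Set.Ici N) N z : ℝ))
      - 2 ^ (M' - M) * ∑ z : ZMod (3 ^ N), (cnt M (Set.Ici N) N z : ℝ)
      ≤ 2 ^ M' * Real.exp (-((N : ℝ) / 6))

/-- **Row WMS** (mass; uses HOE). PROOF. sum_z cnt (3m) (Ici m) m z is the number of O ⊆ Icc 1 (3m)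
with |O| ≥ m: at most 2^(3m), and the number with |O| < m is at most 2^(3m) exp(-m/6) (HOE with
s = 3m, u = m; m = 0 none). -/
def WmsStmt : Prop :=
  ∀ m : ℕ, (∀ z, 0 ≤ W m z) ∧ ∑ z, W m z ≤ 3 ^ m ∧
    (1 - Real.exp (-((m : ℝ) / 6))) * 3 ^ m ≤ ∑ z, W m z

/-- **Row WCF** (uses HFR, WEX, HOE). PROOF. M = 3(N+1) = 3N+3. W (N+1) x = 3^(N+1)/2^M
cnt M (Ici (N+1)) (N+1) x. By HFR (8(N+1) ≤ 5M) sum_x |W (N+1) x - 3^N/2^M cnt M (Ici (N+1)) N (pj x)|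
≤ 3^(N+1) C/(N+1)^A. For z ∈ Z/3^N: 0 ≤ cnt M (Ici N) N z - cnt M (Ici (N+1)) N z, with sum over z equal
to C(M,N) ≤ 2^M exp(-(N+3)²/(2(3N+3))) ≤ 2^M exp(-N/6) (HOE); and WEX (M := 3N, M' := 3N+3):
0 ≤ cnt M (Ici N) N z - 8 cnt (3N) (Ici N) N z, with sum ≤ 2^M exp(-N/6). So
sum_z |3^N/2^M cnt M (Ici (N+1)) N z - W N z| ≤ 2 * 3^N exp(-N/6), and every z has three x. -/
def WcfStmt : Prop :=
  ∀ A : ℕ, ∃ C : ℝ, 1 ≤ C ∧ ∀ N : ℕ,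
    ∑ x : ZMod (3 ^ (N + 1)), |W (N + 1) x - W N (pj N (N + 1) x)|
      ≤ C / ((N : ℝ) + 1) ^ A * 3 ^ (N + 1)

/-- **Row WTL** (uses WCF). PROOF. WCF with A = 2, η r = sum_(N ≥ r) C/(N+1)^2 -> 0; telescoping, the
fibres of pj (N'+1) N : Z/3^N -> Z/3^(N'+1) have 3^(N-N'-1) elements. -/
def WtlStmt : Prop :=
  ∃ η : ℕ → ℝ, Tendsto η atTop (𝓝 0) ∧ ∀ r N : ℕ, r ≤ N →
    ∑ x : ZMod (3 ^ N), |W N x - W r (pj r N x)| ≤ η r * 3 ^ N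

/-- **Row GEN** (2 is a primitive root mod 3^(r+1)). PROOF. By induction 4^(3^k) = 1 + 3^(k+1) c
with 3 ∤ c, so 4 has order 3^r mod 3^(r+1); 2 has even order (2 = -1 mod 3) so the order of 2 is
2 * 3^r, the number of units. Hence every unit is a power of 2, also of 2⁻¹, with exponent in
1..2*3^r. -/
def GenStmt : Prop :=
  ∀ (r : ℕ) (u : ZMod (3 ^ (r + 1))), IsUnit u →
    ∃ j : ℕ, 1 ≤ j ∧ j ≤ 2 * 3 ^ r ∧ u = (2 : ZMod (3 ^ (r + 1)))⁻¹ ^ j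

/-- **Row WIN** (functional inequality for the counts). PROOF. O ↦ {j} ∪ (O + j) is an injection of
the words for b into the words O⁺ ⊆ Icc 1 (3N+j), |O⁺| = |O| + 1 ≥ N + 1 (all elements of O + j are
> j), and FO (N+1) O⁺ = 2^(-j) + sum_(p∈O) 3^(1+rk O p) 2^(-p-j) = 2^(-j) (1 + 3 FO (N+1) O), where
3 FO (N+1) O = 3 b.val in Z/3^(N+1) because FO (N+1) O projects to FO N O = b. -/
def WinStmt : Prop :=
  ∀ (N j : ℕ) (b : ZMod (3 ^ N)), 1 ≤ j →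
    cnt (3 * N) (Set.Ici N) N b ≤ cnt (3 * N + j) (Set.Ici (N + 1)) (N + 1)
      ((2 : ZMod (3 ^ (N + 1)))⁻¹ ^ j * (1 + 3 * ((b.val : ℕ) : ZMod (3 ^ (N + 1)))))

/-- **Row PSF** (the density is positive, finite level; uses WTL WMS GEN WIN WEX WE2). PROOF. η from WTL;
choose r ≥ 6 with η r ≤ ε/8 (and η r ≥ 0 as r ≤ N = r). Let v > 0 be the minimum of the nonzero values
of W r (there is one, WMS: sum W r ≥ 3^r/2). c = (1/2) * (3/2) * 2^(-2*3^r) * v. Let N ≥ r. For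
y ∈ Z/3^r let β y = number of x ∈ Z/3^N above y with W N x < W r y/2; by WTL
sum_y (W r y/2) β y ≤ η r 3^N. If β y > 4 η r 3^(N-r) for all y with W r y > 0, then
sum_y W r y β y > 4 η r 3^(N-r) * 3^r/2, contradiction (if η r = 0: all β y W r y are 0, take any y with
W r y > 0); so there is y with W r y ≥ v and β y ≤ 4 η r 3^(N-r). For a unit γ of Z/3^(r+1), by GEN
there is j ∈ [1, 2*3^r] with γ = 2^(-j) (1 + 3 y.val) (γ/(1+3 y.val) is a unit). The map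
x ↦ a = 2^(-j) (1 + 3 x.val) from the x above y (3^(N-r) many) to the a ∈ Z/3^(N+1) above γ
(3^(N-r) many) is injective, so bijective. For x not counted in β y, WIN gives
3^(N+1)/2^(3N+j) cnt (3N+j) (Ici (N+1)) (N+1) a ≥ 3 * 2^(-j) W N x ≥ 3 * 2^(-j) v/2 ≥ 2c. If
j ≤ 3, WE2 (N + 1, from 3N+j to 3N+3) gives W (N+1) a ≥ 2c. If j > 3: WEX
(M = 3N+3, M' = 3N+j): the sum over a of
3^(N+1)/2^(3N+j) cnt (3N+j) .. a - W (N+1) a ≥ 0 is at most 3^(N+1) exp(-(N+1)/6), so for all but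
3^(N+1) exp(-(N+1)/6)/c of the a we get W (N+1) a ≥ c. Sum over the 2*3^r units γ (j, and y, depend on
γ and N only through finitely many values): the number of units a with W (N+1) a < c is at most
2*3^r (4 η r 3^(N-r) + 3^(N+1) exp(-(N+1)/6)/c) ≤ (8/3) η r 3^(N+1) + small ≤ ε 3^(N+1) for N ≥ N0. -/
def PsfStmt : Prop :=
  ∀ ε : ℝ, 0 < ε → ∃ c : ℝ, 0 < c ∧ ∃ N0 : ℕ, ∀ N : ℕ, N0 ≤ N →
    ((Finset.univ.filter (fun a : ZMod (3 ^ (N + 1)) => IsUnit a ∧ W (N + 1) a < c)).card : ℝ)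
      ≤ ε * 3 ^ (N + 1)

/-- **Row WE2** (extension for all M ≤ M'). PROOF. First part of WEX, without the condition 3N ≤ M. -/
def We2Stmt : Prop :=
  ∀ (N M M' : ℕ) (z : ZMod (3 ^ N)), M ≤ M' →
    2 ^ (M' - M) * cnt M (Set.Ici N) N z ≤ cnt M' (Set.Ici N) N z

/-! ### measure -/

/-- **Row MEA** (integration of functions of finite level). PROOF. x ↦ toZModPow N x is continuous
for the discrete topology (locally constant: its kernel is the ideal (3^N), a ball), so measurable.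
The 3^N fibres are translates of each other (toZModPow N is a surjective ring homomorphism), so they
have the same Haar measure; μ3 univ = 1 (`addHaarMeasure_self`), so each has measure 3^(-N). -/
def MeaStmt : Prop :=
  IsProbabilityMeasure μ3 ∧
  ∀ (N : ℕ) (g : ZMod (3 ^ N) → ℝ≥0∞), Measurable (fun x : ℤ_[3] => g (PadicInt.toZModPow N x)) ∧
    ∫⁻ x, g (PadicInt.toZModPow N x) ∂μ3 = (∑ y, g y) / 3 ^ N

/-- **Row UTS** (units; uses MEA, APR). PROOF. x is a unit iff toZModPow 1 x ≠ 0 (`PadicInt.isUnit_iff`,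
norm 1 iff not divisible by 3); MEA with N = 1. For l ≥ 1 and O with |O| = l, FO l O maps to
2^(-min O) ≠ 0 in Z/3 (rank 0 term, the others are divisible by 3), so cnt M {l} l y = 0 if y
maps to 0 in Z/3. For x not a unit sP n x is the term l = 0, which is cnt n {0} 0 _ = 1. -/
def UtsStmt : Prop :=
  MeasurableSet U3 ∧ μ3 U3 = 2 / 3 ∧ (∀ x : ℤ_[3], x ∉ U3 → ∀ n, sP n x = 1) ∧
  (∀ (N : ℕ) (x : ℤ_[3]), 1 ≤ N → (x ∈ U3 ↔ IsUnit (PadicInt.toZModPow N x)))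

/-- **Row INT** (the integral of s_n; uses MEA, APR, FLO, PRJ). PROOF. sP n x = sum over l of
cnt (Mz n l) {l} l (toZModPow l x) (APR, FLO), each term is measurable with integral
sum_y cnt (Mz n l) {l} l y/3^l = C(Mz n l, l)/3^l (MEA; PRJ with N = 0 or directly: every O
with |O| = l is counted once), `lintegral_tsum`. -/
def IntStmt : Prop :=
  ∀ n : ℕ, Measurable (sP n) ∧
    (∀ x, sP n x = ∑' l : ℕ, (cnt (Mz n l) {l} l (PadicInt.toZModPow l x) : ℝ≥0∞)) ∧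
    ∫⁻ x, sP n x ∂μ3 = ∑' l : ℕ, ENNReal.ofReal (en n l)

/-- **Row WLM** (the limit density; uses MEA, WCF, WMS). PROOF. By MEA and WCF (A = 2)
∫ |Wp (N+1) x - Wp N x| = 3^(-(N+1)) sum_x |W (N+1) x - W N (pj x)| ≤ C/(N+1)^2
(pj N (N+1) (toZModPow (N+1) x) = toZModPow N x, `PadicInt.cast_toZModPow`), summable, so for almost
every x sum_N |Wp (N+1) x - Wp N x| < ∞ and Wp N x converges;
`measurable_limit_of_tendsto_metrizable_ae`, take max with 0. ∫ w = lim ∫ Wp N (dominated by the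
integrable function Wp 0 + sum |Wp (N+1) - Wp N|), ∫ Wp N = 3^(-N) sum_z W N z -> 1 (WMS). -/
def WlmStmt : Prop :=
  ∃ w : ℤ_[3] → ℝ, Measurable w ∧ (∀ x, 0 ≤ w x) ∧
    (∀ᵐ x ∂μ3, Tendsto (fun m => Wp m x) atTop (𝓝 (w x))) ∧
    ∫⁻ x, ENNReal.ofReal (w x) ∂μ3 = 1

/-- **Row POS** (uses MEA, UTS, PSF). PROOF. Let ε > 0, c from PSF. By MEA and UTS
μ3 {x ∈ U3 : Wp (N+1) x < c} ≤ ε for N ≥ N0. If w x = 0 and Wp m x -> w x then Wp (N+1) x < c for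
all large N; so {x ∈ U3 : w x = 0} is contained, up to a null set, in the liminf of these sets, and
has measure ≤ ε (Fatou for sets: measure of liminf ≤ liminf of the measures). ε -> 0. -/
def PosStmt : Prop :=
  ∀ w : ℤ_[3] → ℝ, Measurable w → (∀ x, 0 ≤ w x) →
    (∀ᵐ x ∂μ3, Tendsto (fun m => Wp m x) atTop (𝓝 (w x))) → ∀ᵐ x ∂μ3, x ∈ U3 → 0 < w x

/-- **Row TAL** (typical part, measure level; uses MEA, ULX, TYB, FLO). PROOF. m = mn n, n < (m+1)^6,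
m^6 ≤ n ≤ Mz n l, and l ≤ 10n gives 8 l ≤ 5 Mz n l (FLO, n ≥ 2). ULX with A = 24, C independent of ε:
for n ≥ n0(ε), by MEA the integral is at most sum_(l ∈ Ty n) C/(m+1)^24 2^(Mz n l)/3^l
≤ (10n+1) C 2^n/(m+1)^24 ≤ (10n+1) C 2^n/n^4, and S_n ≥ 2^n/(14(n+1)) (TYB). -/
def TalStmt : Prop :=
  ∃ C : ℝ, 0 ≤ C ∧ ∀ ε : ℝ, 0 < ε → ∃ n0 : ℕ, ∀ n : ℕ, n0 ≤ n →
    ∫⁻ x, (∑ l ∈ Ty n, ENNReal.ofReal
        (|(cnt (Mz n l) {l} l (PadicInt.toZModPow l x) : ℝ) - en n l * Wp (mn n) x|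
          - ε * (en n l * Wp (mn n) x))) / ENNReal.ofReal (∑' l, en n l) ∂μ3
      ≤ ENNReal.ofReal (C / ((n : ℝ) + 1) ^ 2)

/-- **Row AEC** (almost everywhere convergence; uses MEA, TYB, TAL, INT). PROOF. S = S_n = sum en n l.
(1) tail: the integral of (1/S) sum_(l ∉ Ty n) u_l(x) is ≤ C (14 (n+1))/(n+1)^4 (MEA termwise, TYB), so
summable in n, and the tail tends to 0 a.e. (the sum over n of the functions has finite integral, so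
it is finite a.e., so the terms tend to 0). (2) TAL with ε = 1/k, k = 1, 2, ..: in the same way the
typical excess E_(n,k)(x) tends to 0 a.e. for every k. (3) For x in the intersection, with
Wp m x -> w x: sum_(l∈Ty) en n l =: θ_n S with θ_n -> 1 (TYB). The typical part V of s_n satisfies
|V/S - θ_n Wp (mn n) x| ≤ (1/k) θ_n Wp (mn n) x + E_(n,k)(x), so
limsup |V/S - w x| ≤ w x/k for every k; mn n -> ∞. s_n = V + tail (INT). -/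
def AecStmt : Prop :=
  ∀ w : ℤ_[3] → ℝ, (∀ x, 0 ≤ w x) → (∀ᵐ x ∂μ3, Tendsto (fun m => Wp m x) atTop (𝓝 (w x))) →
    ∀ᵐ x ∂μ3, Tendsto (fun n => sP n x / ENNReal.ofReal (∑' l, en n l)) atTop
      (𝓝 (ENNReal.ofReal (w x)))

/-- **Row SBR** (uses TYB, UTS, INT, MEA). PROOF. ∫_(U3) sP n = ∫ sP n - μ3(U3ᶜ) (UTS: sP n = 1 off U3)
= S_n - 1/3 (INT, S_n = sum en n l, the term l = 0 is 1, so S_n ≥ 1), finite. sbar n = (3/2) (S_n - 1/3)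
is positive and finite, and S_n/sbar n -> 2/3 as S_n -> ∞ (TYB). -/
def SbrStmt : Prop :=
  (∀ n : ℕ, 1 ≤ n → 0 < sbar n ∧ sbar n < ⊤) ∧
  Tendsto (fun n => ENNReal.ofReal (∑' l, en n l) / sbar n) atTop (𝓝 (2 / 3))

/-- **Row SCH** (Scheffe). PROOF. f n x + (f∞ x - f n x) = max = f∞ x + (f n x - f∞ x) (truncated
subtraction). g_n = f∞ - f n ≤ f∞ tends to 0 a.e., so ∫ g_n -> 0
(`tendsto_lintegral_of_dominated_convergence`); ∫ (f n - f∞) = ∫ f n + ∫ g_n - ∫ f∞ = ∫ g_n (all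
finite). -/
def SchStmt : Prop :=
  ∀ (ν : Measure ℤ_[3]) (f : ℕ → ℤ_[3] → ℝ≥0∞) (g : ℤ_[3] → ℝ≥0∞) (n0 : ℕ),
    (∀ n, Measurable (f n)) → Measurable g → ∫⁻ x, g x ∂ν ≠ ⊤ →
    (∀ n, n0 ≤ n → ∫⁻ x, f n x ∂ν = ∫⁻ x, g x ∂ν) →
    (∀ᵐ x ∂ν, Tendsto (fun n => f n x) atTop (𝓝 (g x))) →
    Tendsto (fun n => ∫⁻ x, ((f n x - g x) + (g x - f n x)) ∂ν) atTop (𝓝 0)

/-- **Row FIN** (uses WLM, POS, AEC, SBR, UTS, INT, SCH). PROOF. w' = (2/3) w (as ENNReal). a.e. unit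
x: 0 < w x < ∞ (POS), sP n x/sbar n = (sP n x/S_n) (S_n/sbar n) -> (2/3) w x. Integral: for a.e.
x ∉ U3 AEC gives 1/S_n -> w x and S_n -> ∞ (S_n/sbar n -> 2/3 and sbar n = (3/2)(S_n - 1/3); or
from the lower bound of TYB, which may be taken as a further hypothesis), so w = 0 a.e. off U3,
∫_(U3) w = 1 and (∫_(U3) w')/μ3 U3 = (2/3)/(2/3) = 1. L1 part: SCH with ν = μ3.restrict U3,
f n = sP n/sbar n, whose integral is μ3 U3 = ∫_(U3) w' for n ≥ 1 (definition of sbar, finite and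
positive; measurability INT). Last part: the limit is in (0, ∞), take c = half of it. -/
def FinStmt : Prop :=
  ∃ w : ℤ_[3] → ℝ≥0∞, Measurable w ∧ (∫⁻ x in U3, w x ∂μ3) / μ3 U3 = 1 ∧
    (∀ᵐ x ∂(μ3.restrict U3), 0 < w x ∧ w x < ⊤ ∧
      Tendsto (fun n => sP n x / sbar n) atTop (𝓝 (w x))) ∧
    Tendsto (fun n => ∫⁻ x in U3, ((sP n x / sbar n - w x) + (w x - sP n x / sbar n)) ∂μ3)
      atTop (𝓝 0) ∧
    (∀ᵐ x ∂(μ3.restrict U3), ∃ c : ℝ≥0∞, 0 < c ∧ ∃ n0 : ℕ, ∀ n, n0 < n → c * sbar n < sP n x)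

end Pool.Agent.WIR
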