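import Pool.Agent.WIR.StmtsA
import Pool.Agent.WIR.StmtsB

/-!
WIR, blocks C and D: Fourier decay of the word sums and the bound for the high frequencies.
`ZMod.stdAddChar x = exp(2 pi i x/3^N)` on `ZMod (3^N)`. The docstrings contain the complete proofs.
-/

namespace Pool.Agent.WIR

open scoped BigOperators

/-- projection `Z/3^n -> Z/3^m` (for `m ≤ n`). -/
def pj (m n : ℕ) (x : ZMod (3 ^ n)) : ZMod (3 ^ m) := (x.val : ZMod (3 ^ m))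

open Classical in
/-- **Row AWS** (word sums). PROOF. Induction on n, for all i and l. n = 0: O = ∅. Step: split the
subsets of Icc (l+1) (l+1+n) according to l + 1 ∈ O. If l + 1 ∉ O, O is a subset of
Icc (l+2) (l+1+n) (this is Icc ((l+1)+1) ((l+1)+n)). If O = insert (l+1) O', O' ⊆ Icc (l+2) (l+1+n):
rk O (l+1) = 0 and rk O p = 1 + rk O' p for p ∈ O', |O| = |O'| + 1, so the exponent is
-(ξ 3^i 2^(-(l+1))) + (-(ξ sum_(p∈O') 3^(i+1+rk O' p) 2^(-p))), `AddChar.map_add_eq_mul`. -/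
def AwsStmt : Prop :=
  ∀ (N : ℕ) (S : Set ℕ) (ξ : ZMod (3 ^ N)) (n i l : ℕ),
    ∑ O ∈ (Finset.Icc (l + 1) (l + n)).powerset.filter (fun O => i + O.card ∈ S),
      ZMod.stdAddChar (-(ξ * ∑ p ∈ O, 3 ^ (i + rk O p) * (2 : ZMod (3 ^ N))⁻¹ ^ p))
    = 2 ^ n * Aw N S ξ n i l

open Classical in
/-- **Row AWR** (first head). PROOF. Induction on n for all l: the first term of the recursion is the
summand x = l + 1, the second one, Aw n i (l+1) / 2, gives the summands x in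
Icc (l+2) (l+1+n) (with (1/2)^(x-(l+1)) / 2 = (1/2)^(x-l)) and the last term. -/
def AwrStmt : Prop :=
  ∀ (N : ℕ) (S : Set ℕ) (ξ : ZMod (3 ^ N)) (n i l : ℕ),
    Aw N S ξ n i l = ∑ x ∈ Finset.Icc (l + 1) (l + n), (1 / 2 : ℂ) ^ (x - l) *
        (ZMod.stdAddChar (-(ξ * 3 ^ i * (2 : ZMod (3 ^ N))⁻¹ ^ x)) * Aw N S ξ (l + n - x) (i + 1) x)
      + (1 / 2 : ℂ) ^ n * (if i ∈ S then 1 else 0)

/-- **Row WGN** (gain). PROOF. ‖χ a + χ b‖ = ‖1 + χ(b - a)‖ = 2 |cos(pi θ)|, θ = m/3^N,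
m = (b-a).valMinAbs, |θ| ≤ 1/2, |θ| > eps (‖1 + exp(i x)‖² = 2 + 2 cos x = 4 cos(x/2)²);
1 - cos(pi θ) = 2 sin(pi θ/2)² ≥ 2 θ² (`Real.mul_le_sin`: sin y ≥ 2y/pi on [0, pi/2]), and
cos(pi θ) ≥ 0. -/
def WgnStmt : Prop :=
  ∀ (N : ℕ) (a b : ZMod (3 ^ N)), eps * 3 ^ N < |((b - a).valMinAbs : ℝ)| →
    ‖ZMod.stdAddChar a + ZMod.stdAddChar b‖ ≤ 2 * (1 - 2 * eps ^ 2)

open Classical in
/-- **Row AWP** (two heads; uses AWR, WGN). PROOF. i ∉ S, i + 1 ∉ S. AWR twice, exchange the two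
sums (l < x < z ≤ l + n, (1/2)^(x-l) (1/2)^(z-x) = (1/2)^(z-l)):
Aw n i l = sum_(z ∈ Icc (l+2) (l+n)) (1/2)^(z-l) χ(-(ξ 3^(i+1) 2^(-z))) Aw (l+n-z) (i+2) z *
sum_(x ∈ Icc (l+1) (z-1)) χ(-(ξ 3^i 2^(-x))) (note l + n - z = x + (l+n-x) - z). The inner sum has
norm ≤ z - l - 1, and for z = l + 3 it is χ(a) + χ(b) with a = -(ξ 3^i 2^(-(l+1))),
b = -(ξ 3^i 2^(-(l+2))), b - a = ξ 3^i 2^(-(l+2)): WGN under the hypothesis. -/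
def AwpStmt : Prop :=
  ∀ (N : ℕ) (S : Set ℕ) (ξ : ZMod (3 ^ N)) (n i l : ℕ) (W : Prop), i ∉ S → i + 1 ∉ S →
    (W → eps * 3 ^ N < |((ξ * 3 ^ i * (2 : ZMod (3 ^ N))⁻¹ ^ (l + 2)).valMinAbs : ℝ)|) →
    ‖Aw N S ξ n i l‖ ≤ Kh (l + n) (fun z => (if z = l + 3 ∧ W then 1 - 2 * eps ^ 2 else 1)
      * ‖Aw N S ξ (l + n - z) (i + 2) z‖) l

/-- **Row ADV** (uses AWP, MON). PROOF. h = (N-t)/2, induction on k = h - j. ‖Aw‖ ≤ 1 always (AWR or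
directly by induction on n), Dv (l+n) .. 0 j l = 1. Step: j < h, i = t + 2j, i + 2 ≤ N, so
i, i+1 ∉ S. AWP with W = ¬ bk (j+1) (l+3): since 1 ≤ j+1 ≤ h, W means
eps 3^N < |mm (j+1) (l+3)|, and res (j+1) (l+3) = 2 ξ 3^(t+2j) 2^(-(l+3)) = ξ 3^i 2^(-(l+2)). The
induction hypothesis for j + 1, z, n' = l + n - z (z + n' = l + n) and monotonicity of Kh (MON). -/
def AdvStmt : Prop :=
  ∀ (N t : ℕ) (S : Set ℕ) (ξ : ZMod (3 ^ N)) (n j l : ℕ), t ≤ N → (∀ m ∈ S, N ≤ m) →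
    j ≤ (N - t) / 2 →
    ‖Aw N S ξ n (t + 2 * j) l‖
      ≤ Dv (l + n) (2 * eps ^ 2) (bk N t ξ ((N - t) / 2)) ((N - t) / 2 - j) j l

/-- **Row FDC** (Fourier decay; uses TSY, DEC, ADV). PROOF. ADV with j = 0, TSY, DEC with
d = 2 eps², j = 0, m = h = (N-t)/2: norm ≤ C'/(h+1)^A, and h + 1 ≥ (N-t+1)/2, C = C' 2^A. -/
def FdcStmt : Prop :=
  ∀ A : ℕ, ∃ C : ℝ, 1 ≤ C ∧ ∀ (N t : ℕ) (S : Set ℕ) (ξ : ZMod (3 ^ N)) (n l : ℕ), IsUnit ξ →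
    t ≤ N → (∀ m ∈ S, N ≤ m) → ‖Aw N S ξ n t l‖ ≤ C / (((N - t : ℕ) : ℝ) + 1) ^ A

/-! ### block D: high frequencies -/

/-- the high frequency part of a function on `Z/3^(N+1)`. -/
noncomputable def HF (N : ℕ) (f : ZMod (3 ^ (N + 1)) → ℝ) (x : ZMod (3 ^ (N + 1))) : ℝ :=
  f x - (1 / 3) * ∑ y ∈ Finset.univ.filter (fun y => pj N (N + 1) y = pj N (N + 1) x), f y

/-- Fourier transform on `Z/3^N`. -/
noncomputable def ft (N : ℕ) (f : ZMod (3 ^ N) → ℝ) (ξ : ZMod (3 ^ N)) : ℂ :=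
  ∑ x, (f x : ℂ) * ZMod.stdAddChar (-(ξ * x))

/-- **Row PLS** (Parseval). PROOF. Orthogonality sum_ξ χ(ξ z) = 3^N if z = 0, otherwise 0
(`AddChar.sum_mulShift`, `ZMod.isPrimitive_stdAddChar`), expand the square (conj χ = χ of the
negative). -/
def PlsStmt : Prop :=
  ∀ (N : ℕ) (f : ZMod (3 ^ N) → ℝ), ∑ ξ, ‖ft N f ξ‖ ^ 2 = 3 ^ N * ∑ x, f x ^ 2

/-- **Row PAR** (uses PLS). PROOF. g = HF N f. The y with the same projection as x are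
x, x + 3^N, x + 2 * 3^N. So ft g ξ = ft f ξ (1 - (1 + ω + ω²)/3) with ω = χ(ξ 3^N),
ω³ = 1, up to the sign of the exponent; if 3 ∤ ξ (ξ a unit) ω ≠ 1 and ft g ξ = ft f ξ; otherwise
ω = 1 and ft g ξ = 0. Cauchy-Schwarz: sum |g| ≤ (3^(N+1) sum g²)^(1/2), and PLS for g. -/
def ParStmt : Prop :=
  ∀ (N : ℕ) (f : ZMod (3 ^ (N + 1)) → ℝ) (X : ℝ), 0 ≤ X →
    (∀ T : Finset (ZMod (3 ^ (N + 1))), (∀ ξ ∈ T, IsUnit ξ) →
      ∑ ξ ∈ T, ‖ft (N + 1) f ξ‖ ^ 2 ≤ X ^ 2) →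
    ∑ x, |HF N f x| ≤ X

/-- **Row INJ**. PROOF. (1) 2^L (2⁻¹)^p = 2^(L-p) for p ≤ L. (2) induction on |O|: if O ≠ ∅ let P be
the largest element, O1 = O.erase P; ranks of the elements of O1 are unchanged, rk O P = |O| - 1, so
nO L O = 3^(|O|-1) 2^(L-P) + nO L O1 and every term of nO L O1 is divisible by 2^(L-P+1): the exact
power of 2 in nO L O is 2^(L-P). So O and O' have the same maximum, subtract and use the
induction hypothesis. -/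
def InjStmt : Prop :=
  (∀ (N L : ℕ) (O : Finset ℕ), O ⊆ Finset.Icc 1 L →
    (2 : ZMod (3 ^ N)) ^ L * FO N O = (nO L O : ZMod (3 ^ N))) ∧
  (∀ (L : ℕ) (O O' : Finset ℕ), O ⊆ Finset.Icc 1 L → O' ⊆ Finset.Icc 1 L → O.card = O'.card →
    nO L O = nO L O' → O = O')

/-- **Row GL2** (uses PLS, INJ). PROOF. By INJ FO N is injective on 𝒢 (FO N O = FO N O' gives
nO L O ≡ nO L O' mod 3^N, both are < 3^N). Apply PLS to the indicator function f of the image: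
ft f ξ = sum_(O∈𝒢) χ(-(ξ FO N O)) and sum f² = |𝒢| ≤ 2^L. -/
def Gl2Stmt : Prop :=
  ∀ (N L t : ℕ) (𝒢 : Finset (Finset ℕ)),
    (∀ O ∈ 𝒢, O ⊆ Finset.Icc 1 L ∧ O.card = t ∧ nO L O < 3 ^ N) →
    ∑ ξ : ZMod (3 ^ N), ‖∑ O ∈ 𝒢, ZMod.stdAddChar (-(ξ * FO N O))‖ ^ 2 ≤ 3 ^ N * 2 ^ L

open Classical in
/-- **Row SPL** (uses AWS). PROOF. O ↦ (O ∩ Icc 1 L, O ∩ Icc (L+1) M) is a bijection onto
pairs (O1, O2), O1 ∈ 𝒢 and O2 ⊆ Icc (L+1) M with t + |O2| ∈ S; rk O p = rk O1 p for p ≤ L and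
t + rk O2 p for p > L, so FO N O = FO N O1 + sum_(p∈O2) 3^(t+rk O2 p) 2^(-p); the character of a
sum is the product. AWS with n = M - L, i = t, l = L. -/
def SplStmt : Prop :=
  ∀ (N L M t : ℕ) (S : Set ℕ) (ξ : ZMod (3 ^ N)) (𝒢 : Finset (Finset ℕ)), L ≤ M →
    (∀ O ∈ 𝒢, O ⊆ Finset.Icc 1 L ∧ O.card = t) →
    ∑ O ∈ (Finset.Icc 1 M).powerset.filter (fun O => O ∩ Finset.Icc 1 L ∈ 𝒢 ∧ O.card ∈ S),
      ZMod.stdAddChar (-(ξ * FO N O))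
    = (∑ O ∈ 𝒢, ZMod.stdAddChar (-(ξ * FO N O))) * (2 ^ (M - L) * Aw N S ξ (M - L) t L)

/-- **Row EXP** (mean of the integers). PROOF. Exchange the sums: for p ∈ Icc 1 L the O containing
p are O1 ∪ {p} ∪ O2, O1 ⊆ Icc 1 (p-1), O2 ⊆ Icc (p+1) L, rk O p = |O1|, and
sum_(O1) 3^|O1| = 4^(p-1), number of O2 is 2^(L-p): total sum_p 4^(p-1) 2^(L-p) 2^(L-p)
= L 4^(L-1). (Or induction on L: nO (L+1) O = 2 nO L (O.erase (L+1)) + [L+1 ∈ O] 3^(|O|-1).) -/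
def ExpStmt : Prop :=
  ∀ L : ℕ, 4 * ∑ O ∈ (Finset.Icc 1 L).powerset, nO L O = L * 4 ^ L

/-- the good words: `t` heads before `L`, and the integer is small. -/
def gd (N L t : ℕ) : Finset (Finset ℕ) :=
  (Finset.Icc 1 L).powerset.filter (fun O => O.card = t ∧ nO L O < 3 ^ N)

open Classical in
/-- number of the words `O ⊆ {1..M}` with good beginning, `|O| ∈ S`, `F_N(O) = x`. -/
noncomputable def fg (M L : ℕ) (S : Set ℕ) (N t : ℕ) (x : ZMod (3 ^ N)) : ℝ :=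
  (((Finset.Icc 1 M).powerset.filter
    (fun O => O ∩ Finset.Icc 1 L ∈ gd N L t ∧ O.card ∈ S ∧ FO N O = x)).card : ℝ)

/-- **Row HFG** (good words; uses FDC, PAR, GL2, SPL). PROOF. ft (fg ..) ξ
= sum over the O of SPL of χ(-(ξ FO O)) = (sum_(O∈gd) χ) 2^(M-L) Aw (M-L) t L. For units ξ FDC gives
|Aw| ≤ C'/(N+1-t+1)^A ≤ C' 20^A/(N+1)^A (20 t ≤ 19 (N+1)). So for T a set of units
sum_(ξ∈T) |ft ξ|² ≤ (C' 20^A/(N+1)^A)² 4^(M-L) 3^(N+1) 2^L by GL2, this is X² with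
X = C' 20^A/(N+1)^A 2^M sqrt(3^(N+1)/2^L); PAR. -/
def HfgStmt : Prop :=
  ∀ A : ℕ, ∃ C : ℝ, 1 ≤ C ∧ ∀ (N L M t : ℕ) (S : Set ℕ), L ≤ M → (∀ m ∈ S, N + 1 ≤ m) →
    20 * t ≤ 19 * (N + 1) →
    ∑ x, |HF N (fg M L S (N + 1) t) x|
      ≤ C / ((N : ℝ) + 1) ^ A * (2 ^ M * Real.sqrt (3 ^ (N + 1) / 2 ^ L))

/-- **Row HFB** (bad words; uses HOE, EXP). PROOF. The number of O ⊆ Icc 1 L with |O| = r is C(L,r).
20 |O| > 19 N means 2 |O| - L > 1.9 N - L =: u ≥ 0.3 N (5L ≤ 8N); L = 0: no such O (N ≥ 1).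
HOE: ≤ 2^L exp(-u²/(2L)) and u²/(2L) ≥ 0.09 N²/(3.2 N) ≥ N/40. Markov with EXP:
3^N #{nO ≥ 3^N} ≤ sum nO ≤ L 4^L/4. -/
def HfbStmt : Prop :=
  ∀ N L : ℕ, 1 ≤ N → 5 * L ≤ 8 * N →
    (((Finset.Icc 1 L).powerset.filter (fun O => 19 * N < 20 * O.card ∨ 3 ^ N ≤ nO L O)).card : ℝ)
      ≤ 2 ^ L * (Real.exp (-((N : ℝ) / 40)) + L * 2 ^ L / 3 ^ N)

/-- **Row PRJ** (projection). PROOF. pj N (N+1) is the ring homomorphism `ZMod.castHom` and maps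
2⁻¹ to 2⁻¹, so pj (FO (N+1) O) = FO N O; group the words by FO (N+1) O. More generally for
N ≤ N'. -/
def PrjStmt : Prop :=
  ∀ (M N N' : ℕ) (S : Set ℕ) (z : ZMod (3 ^ N)), N ≤ N' →
    ∑ y ∈ Finset.univ.filter (fun y => pj N N' y = z), cnt M S N' y = cnt M S N z

/-- **Row HFR** (high frequencies; uses HFG, HFB, PRJ). PROOF. n = N + 1. Total number of words is
≤ 2^M, so the left side is ≤ 2 * 2^M always (PRJ: sum_x cnt M S N (pj x) = 3 sum_z cnt M S N z), and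
it is enough to treat n ≥ n0(A). K = A + 1. Let L = Nat.log 2 (3^n / n^K), n0 such that
n^K ≤ 3^n: then 2^L n^K ≤ 3^n < 2^(L+1) n^K. 2^(5L) ≤ 3^(5n) ≤ 2^(8n) gives 5L ≤ 8n, and
L ≤ M. cnt M S n = sum_(t : 20 t ≤ 19 n) fg M L S n t + bad, where bad counts the words with
O ∩ Icc 1 L bad in the sense of HFB; HF is linear, sum_x |HF bad| ≤ 2 sum bad
≤ 2 * 2^(M-L) * 2^L (exp(-n/40) + L 2^L/3^n) ≤ 2^(M+1) (exp(-n/40) + 2n/n^K). HFG with exponent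
A' = 2A + 3: sum over the at most n + 1 values t: ≤ 2n C' n^(-A') 2^M sqrt(2 n^K)
≤ 4 C' 2^M n^(1 + (A+1) - (2A+3)) = 4 C' 2^M n^(-A-1) (n^(K/2) ≤ n^K). By PRJ
HF N (cnt M S (N+1)) x = cnt M S (N+1) x - cnt M S N (pj x)/3. exp(-n/40) ≤ C'' n^(-A). -/
def HfrStmt : Prop :=
  ∀ A : ℕ, ∃ C : ℝ, 1 ≤ C ∧ ∀ (N M : ℕ) (S : Set ℕ), 8 * (N + 1) ≤ 5 * M →
    (∀ m ∈ S, N + 1 ≤ m) →
    ∑ x : ZMod (3 ^ (N + 1)), |(cnt M S (N + 1) x : ℝ) - (cnt M S N (pj N (N + 1) x) : ℝ) / 3|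
      ≤ C / ((N : ℝ) + 1) ^ A * 2 ^ M

end Pool.Agent.WIR
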