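import Mathlib

/-!
WIR: convergence of Wirsching's averages for Haar-almost every 3-adic unit (MP_0f3fac_nt).
Definitions of the squad.
-/

namespace Pool.Agent.WIR

open scoped BigOperators

/-! ### words -/

/-- rank of the position `p` in `O`: the number of smaller elements. -/
def rk (O : Finset ℕ) (p : ℕ) : ℕ := (O.filter (fun q => q < p)).card

/-- `F_N(O) = sum_(p in O) 3^(rk p) 2^(-p)` in `Z/3^N`. -/
noncomputable def FO (N : ℕ) (O : Finset ℕ) : ZMod (3 ^ N) :=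
  ∑ p ∈ O, 3 ^ rk O p * (2 : ZMod (3 ^ N))⁻¹ ^ p

/-- the integer `sum_(p in O) 3^(rk p) 2^(L-p)` (used for `O ⊆ {1..L}`). -/
def nO (L : ℕ) (O : Finset ℕ) : ℕ := ∑ p ∈ O, 3 ^ rk O p * 2 ^ (L - p)

open Classical in
/-- number of `O ⊆ {1..M}` with `|O| ∈ S` and `F_N(O) = x`. -/
noncomputable def cnt (M : ℕ) (S : Set ℕ) (N : ℕ) (x : ZMod (3 ^ N)) : ℕ :=
  ((Finset.Icc 1 M).powerset.filter (fun O => O.card ∈ S ∧ FO N O = x)).card

open Classical in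
/-- average of the character over the coin flips `l+1, ..., l+n`, after `i` heads. -/
noncomputable def Aw (N : ℕ) (S : Set ℕ) (ξ : ZMod (3 ^ N)) : ℕ → ℕ → ℕ → ℂ
  | 0, i, _ => if i ∈ S then 1 else 0
  | n + 1, i, l => (1 / 2 : ℂ) *
      (ZMod.stdAddChar (-(ξ * 3 ^ i * (2 : ZMod (3 ^ N))⁻¹ ^ (l + 1))) * Aw N S ξ n (i + 1) (l + 1)
        + Aw N S ξ n i (l + 1))

/-! ### the triangle system of Tao -/

/-- `eps = 1/(100 * 18^12)`. -/
noncomputable def eps : ℝ := 1 / (100 * 18 ^ 12)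

/-- `lam = log_2 9`. -/
noncomputable def lam : ℝ := Real.logb 2 9

/-- `2 ξ 3^(t+2j-2) 2^(-l)` in `Z/3^N` (for `j ≥ 1`). -/
noncomputable def res (N t : ℕ) (ξ : ZMod (3 ^ N)) (j l : ℕ) : ZMod (3 ^ N) :=
  2 * ξ * 3 ^ (t + 2 * j - 2) * (2 : ZMod (3 ^ N))⁻¹ ^ l

/-- the centred representative of `res`. -/
noncomputable def mm (N t : ℕ) (ξ : ZMod (3 ^ N)) (j l : ℕ) : ℤ := (res N t ξ j l).valMinAbs

/-- black points. -/
def bk (N t : ℕ) (ξ : ZMod (3 ^ N)) (h : ℕ) (j l : ℕ) : Prop :=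
  1 ≤ j ∧ j ≤ h ∧ |(mm N t ξ j l : ℝ)| ≤ eps * 3 ^ N

/-- the triangle with corner `q = (j*,l*)` and size `t`. -/
def Tri (q : ℕ × ℕ) (t : ℝ) (j l : ℕ) : Prop :=
  q.1 ≤ j ∧ l ≤ q.2 ∧ lam * ((j : ℝ) - q.1) + ((q.2 : ℝ) - l) ≤ t

/-- a triangle system for the set `b` of black points, with corners `Q` and sizes `t`. -/
structure TSys (h : ℕ) (b : ℕ → ℕ → Prop) (Q : Set (ℕ × ℕ)) (t : ℕ × ℕ → ℝ) : Prop where
  /-- black points are covered -/
  cover : ∀ j l, b j l → ∃ q ∈ Q, Tri q (t q) j l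
  /-- triangles are black and end at `h` -/
  sub : ∀ q ∈ Q, ∀ j l, Tri q (t q) j l → b j l ∧ j ≤ h
  /-- triangles are separated -/
  sep : ∀ q ∈ Q, ∀ j l j' l', Tri q (t q) j l → b j' l' → j' ≤ j + 12 → j ≤ j' + 12 →
    l' ≤ l + 12 → l ≤ l' + 12 → Tri q (t q) j' l'

/-! ### the random walk (horizon `B`) -/

/-- one geometric step: `sum_(l < x ≤ B) 2^(-(x-l)) f(x)`. -/
noncomputable def Gh (B : ℕ) (f : ℕ → ℝ) (l : ℕ) : ℝ :=
  ∑ x ∈ Finset.Icc (l + 1) B, (1 / 2 : ℝ) ^ (x - l) * f x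

/-- a double step: `sum_(l+2 ≤ x ≤ B) (x-l-1) 2^(-(x-l)) f(x)`. -/
noncomputable def Kh (B : ℕ) (f : ℕ → ℝ) (l : ℕ) : ℝ :=
  ∑ x ∈ Finset.Icc (l + 2) B, ((x - l - 1 : ℕ) : ℝ) * (1 / 2 : ℝ) ^ (x - l) * f x

open Classical in
/-- `k` double steps from `(j,l)`; a factor `1 - d` for each double step of length 3 which ends
in a white point. -/
noncomputable def Dv (B : ℕ) (d : ℝ) (b : ℕ → ℕ → Prop) : ℕ → ℕ → ℕ → ℝ
  | 0, _, l => if l ≤ B then 1 else 0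
  | k + 1, j, l => Kh B (fun x => (if x = l + 3 ∧ ¬ b (j + 1) x then 1 - d else 1)
      * Dv B d b k (j + 1) x) l

/-- value of `V` at the first passage over height `s` above `l`; only `r < R0` heads. -/
noncomputable def FPE (B s R0 : ℕ) (V : ℕ → ℕ → ℝ) (l : ℕ) : ℝ :=
  ∑ r ∈ Finset.range (s + 1), (s.choose r : ℝ) * (1 / 2 : ℝ) ^ s *
    (if r < R0 then (if Even r then Kh B (V (r / 2 + 1)) (l + s)
      else Gh B (V (r / 2 + 1)) (l + s)) else 0)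

open Classical in
/-- expected number of the times `i' ∈ [i, i+P)` at which the walk is in the bad set `β i'`. -/
noncomputable def Cn (B : ℕ) (β : ℕ → ℕ → ℕ → Prop) : ℕ → ℕ → ℕ → ℕ → ℝ
  | 0, _, _, _ => 0
  | P + 1, i, j, l => (if β i j l ∧ l ≤ B then 1 else 0)
      + Kh B (fun x => Cn B β P (i + 1) (j + 1) x) l

/-- bad points: the point reached by a step of length 3 lies in a triangle whose top is more
than `g` above. -/
def badE (Q : Set (ℕ × ℕ)) (t : ℕ × ℕ → ℝ) (g : ℕ) (j l : ℕ) : Prop :=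
  ∃ q ∈ Q, Tri q (t q) (j + 1) (l + 3) ∧ l + g < q.2

/-- budget for `R` trials from time `i`. -/
def PR (g : ℕ → ℕ) : ℕ → ℕ → ℕ
  | 0, _ => 0
  | R + 1, i => g i + 2 + PR g R (i + g i + 2)

end Pool.Agent.WIR
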