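import Pool.Agent.WIR.StmtsC

/-!
WIR, block E: definitions for the 3x+1 map, the 3-adic functions and the Haar measure.
-/

namespace Pool.Agent.WIR

open scoped BigOperators ENNReal

/-- the 3x+1 map. -/
def T (n : ℕ) : ℕ := if n % 2 = 1 then (3 * n + 1) / 2 else n / 2

/-- number of the positive integers `b` with `T^M(b) = a` and exactly `l` odd numbers among
`b, T(b), ..., T^(M-1)(b)`. -/
noncomputable def uT (M l a : ℕ) : ℕ :=
  Set.ncard {b : ℕ | 0 < b ∧ T^[M] b = a ∧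
    ((Finset.range M).filter (fun i => T^[i] b % 2 = 1)).card = l}

/-- `e_l(k,x)` for a 3-adic integer `x`: the value at the positive integer `(x mod 3^l) + 3^l`. -/
noncomputable def eP (l k : ℕ) (x : ℤ_[3]) : ℕ := uT (k + l) l (x.appr l + 3 ^ l)

/-- `s_n(x)`. -/
noncomputable def sP (n : ℕ) (x : ℤ_[3]) : ℝ≥0∞ :=
  ∑' l : ℕ, (eP l (n + ⌊(l : ℝ) * Real.logb 2 (3 / 2)⌋₊) x : ℝ≥0∞)

noncomputable instance : MeasurableSpace ℤ_[3] := borel _

instance : BorelSpace ℤ_[3] := ⟨rfl⟩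

/-- normalised Haar measure on `Z_3`. -/
noncomputable def μ3 : MeasureTheory.Measure ℤ_[3] := MeasureTheory.Measure.addHaarMeasure ⊤

/-- the 3-adic units. -/
def U3 : Set ℤ_[3] := {x | IsUnit x}

/-- the mean value of `s_n` over the units. -/
noncomputable def sbar (n : ℕ) : ℝ≥0∞ := (∫⁻ x in U3, sP n x ∂μ3) / μ3 U3

/-- number of flips for `l` heads. -/
def Mz (n l : ℕ) : ℕ := n + Nat.log 2 (3 ^ l)

/-- mean value of the `l`-th term over `Z_3`. -/
noncomputable def en (n l : ℕ) : ℝ := ((Mz n l).choose l : ℝ) / 3 ^ l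

/-- sixth root. -/
def mn (n : ℕ) : ℕ := Nat.findGreatest (fun m => m ^ 6 ≤ n) n

/-- typical values of `l`. -/
def Ty (n : ℕ) : Finset ℕ :=
  (Finset.range (10 * n + 1)).filter (fun l => |2 * (l : ℤ) - Mz n l| ≤ (mn n : ℤ) ^ 4)

/-- the finite level densities of the stationary measure. -/
noncomputable def W (m : ℕ) (z : ZMod (3 ^ m)) : ℝ :=
  3 ^ m / 2 ^ (3 * m) * (cnt (3 * m) (Set.Ici m) m z : ℝ)

/-- value at a 3-adic integer. -/
noncomputable def Wp (m : ℕ) (x : ℤ_[3]) : ℝ := W m (PadicInt.toZModPow m x)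

end Pool.Agent.WIR
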