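import Pool.Agent.WIR.StmtsE
import Pool.Agent.Helper27_WIR.TXM
import Pool.Agent.Helper77_WIR.TNZ
import Pool.Agent.Helper64_WIR.TMV
import Pool.Agent.Helper33_WIR.TDV
import Pool.Agent.Helper10_WIR.TCV
import Pool.Agent.Helper28_WIR.TSZ
import Pool.Agent.Helper48_WIR.TSB
import Pool.Agent.Helper40_WIR.TSP
import Pool.Agent.Helper81_WIR.TSY
import Pool.Agent.Helper53_WIR.LAM
import Pool.Agent.Helper6_WIR.KGG
import Pool.Agent.Helper31_WIR.GST
import Pool.Agent.Helper27_WIR.MON
import Pool.Agent.Helper32_WIR.MOM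
import Pool.Agent.Helper75_WIR.GKM
import Pool.Agent.Helper26_WIR.FPG
import Pool.Agent.Helper38_WIR.FPS
import Pool.Agent.Helper31_WIR.HOE
import Pool.Agent.Helper10_WIR.GCH
import Pool.Agent.Helper44_WIR.TRS
import Pool.Agent.Helper23_WIR.DVB
import Pool.Agent.Helper85_WIR.WST
import Pool.Agent.Helper95_WIR.GWH
import Pool.Agent.Helper92_WIR.DSJ
import Pool.Agent.Helper47_WIR.CLU
import Pool.Agent.Helper69_WIR.TLM
import Pool.Agent.Helper2_WIR.BIU
import Pool.Agent.Helper48_WIR.BEX
import Pool.Agent.Helper87_WIR.FPB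
import Pool.Agent.Helper94_WIR.CNE
import Pool.Agent.Helper80_WIR.TRI
import Pool.Agent.Helper53_WIR.WHT
import Pool.Agent.Helper98_WIR.DCS
import Pool.Agent.Helper43_WIR.DCL
import Pool.Agent.Helper95_WIR.DEC
import Pool.Agent.Helper47_WIR.AWS
import Pool.Agent.Helper81_WIR.AWR
import Pool.Agent.Helper60_WIR.WGN
import Pool.Agent.Helper92_WIR.AWP
import Pool.Agent.Helper65_WIR.ADV
import Pool.Agent.Helper24_WIR.FDC
import Pool.Agent.Helper16_WIR.PLS
import Pool.Agent.Helper40_WIR.PAR
import Pool.Agent.Helper66_WIR.INJ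
import Pool.Agent.Helper24_WIR.GL2
import Pool.Agent.Helper32_WIR.SPL
import Pool.Agent.Helper16_WIR.EXP
import Pool.Agent.Helper88_WIR.HFG
import Pool.Agent.Helper41_WIR.HFB
import Pool.Agent.Helper60_WIR.PRJ
import Pool.Agent.Helper51_WIR.HFR
import Pool.Agent.Helper6_WIR.CDT
import Pool.Agent.Helper2_WIR.CDR
import Pool.Agent.Helper9_WIR.COD
import Pool.Agent.Helper31_WIR.FLO
import Pool.Agent.Helper94_WIR.APR
import Pool.Agent.Helper86_WIR.TEL
import Pool.Agent.Helper76_WIR.CUT
import Pool.Agent.Helper90_WIR.KAP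
import Pool.Agent.Helper95_WIR.ULX
import Pool.Agent.Helper69_WIR.TYB
import Pool.Agent.Helper5_WIR.WEX
import Pool.Agent.Helper80_WIR.WE2
import Pool.Agent.Helper94_WIR.WMS
import Pool.Agent.Helper86_WIR.WCF
import Pool.Agent.Helper92_WIR.WTL
import Pool.Agent.Helper33_WIR.GEN
import Pool.Agent.Helper94_WIR.WIN
import Pool.Agent.Helper76_WIR.PSF
import Pool.Agent.Helper47_WIR.MEA
import Pool.Agent.Helper49_WIR.UTS
import Pool.Agent.Helper88_WIR.INT
import Pool.Agent.Helper88_WIR.WLM
import Pool.Agent.Helper81_WIR.POS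
import Pool.Agent.Helper88_WIR.TAL
import Pool.Agent.Helper33_WIR.AEC
import Pool.Agent.Helper88_WIR.SBR
import Pool.Agent.Helper49_WIR.SCH
import Pool.Agent.Helper81_WIR.FIN

/-! WIR: assembly of all rows. -/

namespace Pool.Agent.WIR

theorem done_txm : TxmStmt := Pool.Agent.WIR.H27.txm

theorem done_tnz : TnzStmt := Pool.Agent.WIR.H77.tnz

theorem done_tmv : TmvStmt := Pool.Agent.WIR.H64.tmv done_txm

theorem done_tdv : TdvStmt := Pool.Agent.WIR.H33.tdv done_txm

theorem done_tcv : TcvStmt := Pool.Agent.WIR.H10.tcv done_tnz done_tmv done_tdv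

theorem done_tsz : TszStmt := Pool.Agent.WIR.H28.tsz

theorem done_tsb : TsbStmt := Pool.Agent.WIR.H48.tsb done_tnz done_tmv done_tsz

theorem done_tsp : TspStmt := Pool.Agent.WIR.H40.tsp done_tnz done_tmv done_tdv done_tsz done_tsb

theorem done_tsy : TsyStmt := Pool.Agent.WIR.H81.tsy done_tnz done_tcv done_tsz done_tsb done_tsp

theorem done_lam : LamStmt := Pool.Agent.WIR.H53.lam

theorem done_kgg : KggStmt := Pool.Agent.WIR.H6.kgg

theorem done_gst : GstStmt := Pool.Agent.WIR.H31.gst

theorem done_mon : MonStmt := Pool.Agent.WIR.H27.mon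

theorem done_mom : MomStmt := Pool.Agent.WIR.H32.mom

theorem done_gkm : GkmStmt := Pool.Agent.WIR.H75.gkm

theorem done_fpg : FpgStmt := Pool.Agent.WIR.H26.fpg

theorem done_fps : FpsStmt := Pool.Agent.WIR.H38.fps done_kgg done_gst done_mon done_fpg

theorem done_hoe : HoeStmt := Pool.Agent.WIR.H31.hoe

theorem done_gch : GchStmt := Pool.Agent.WIR.H10.gch done_hoe

theorem done_trs : TrsStmt := Pool.Agent.WIR.H44.trs done_fps done_mon done_gkm done_gch

theorem done_dvb : DvbStmt := Pool.Agent.WIR.H23.dvb done_mon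

theorem done_wst : WstStmt := Pool.Agent.WIR.H85.wst done_mon

theorem done_gwh : GwhStmt := Pool.Agent.WIR.H95.gwh done_lam

theorem done_dsj : DsjStmt := Pool.Agent.Helper92_WIR.dsj

theorem done_clu : CluStmt := Pool.Agent.WIR.H47.clu done_lam done_dsj

theorem done_tlm : TlmStmt := Pool.Agent.WIR.H69.tlm

theorem done_biu : BiuStmt := Pool.Agent.WIR.H2.biu

theorem done_bex : BexStmt := Pool.Agent.WIR.H48.bex done_clu done_tlm done_biu done_hoe

theorem done_fpb : FpbStmt := Pool.Agent.WIR.H87.fpb done_mon done_mom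

theorem done_cne : CneStmt := Pool.Agent.WIR.H94.cne done_mon

theorem done_tri : TriStmt := Pool.Agent.WIR.H80.tri done_mon done_dvb done_wst done_gwh done_trs

theorem done_wht : WhtStmt := Pool.Agent.WIR.H53.wht done_mon done_dvb done_bex done_fpb done_cne done_tri

theorem done_dcs : DcsStmt := Pool.Agent.WIR.H98.dcs done_dvb done_wst done_gwh done_trs

theorem done_dcl : DclStmt := Pool.Agent.WIR.H43.dcl done_lam done_mon done_fps done_hoe done_dvb done_wht

theorem done_dec : DecStmt := Pool.Agent.WIR.H95.dec done_dvb done_dcs done_dcl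

theorem done_aws : AwsStmt := Pool.Agent.WIR.H47.aws

theorem done_awr : AwrStmt := Pool.Agent.WIR.H81.awr

theorem done_wgn : WgnStmt := Pool.Agent.WIR.H60.wgn

theorem done_awp : AwpStmt := Pool.Agent.Helper92_WIR.awp done_awr done_wgn

theorem done_adv : AdvStmt := Pool.Agent.WIR.H65.adv done_awp done_mon

theorem done_fdc : FdcStmt := Pool.Agent.WIR.H24.fdc done_tsy done_dec done_adv

theorem done_pls : PlsStmt := Pool.Agent.WIR.H16.pls

theorem done_par : ParStmt := Pool.Agent.WIR.H40.par done_pls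

theorem done_inj : InjStmt := Pool.Agent.WIR.H66.inj

theorem done_gl2 : Gl2Stmt := Pool.Agent.WIR.H24.gl2 done_pls done_inj

theorem done_spl : SplStmt := Pool.Agent.WIR.H32.spl done_aws

theorem done_exp : ExpStmt := Pool.Agent.WIR.H16.exp

theorem done_hfg : HfgStmt := Pool.Agent.WIR.H88.hfg done_fdc done_par done_gl2 done_spl

theorem done_hfb : HfbStmt := Pool.Agent.WIR.H41.hfb done_hoe done_exp

theorem done_prj : PrjStmt := Pool.Agent.WIR.H60.prj

theorem done_hfr : HfrStmt := Pool.Agent.WIR.H51.hfr done_hfg done_hfb done_prj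

theorem done_cdt : CdtStmt := Pool.Agent.WIR.H6.cdt

theorem done_cdr : CdrStmt := Pool.Agent.WIR.H2.cdr

theorem done_cod : CodStmt := Pool.Agent.WIR.H9.cod done_cdt done_cdr

theorem done_flo : FloStmt := Pool.Agent.WIR.H31.flo

theorem done_apr : AprStmt := Pool.Agent.WIR.H94.apr done_cod

theorem done_tel : TelStmt := Pool.Agent.WIR.H86.tel done_hfr done_prj

theorem done_cut : CutStmt := Pool.Agent.WIR.H76.cut done_hoe

theorem done_kap : KapStmt := Pool.Agent.WIR.H90.kap

theorem done_ulx : UlxStmt := Pool.Agent.WIR.H95.ulx done_tel done_cut done_kap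

theorem done_tyb : TybStmt := Pool.Agent.WIR.H69.tyb done_hoe done_flo

theorem done_wex : WexStmt := Pool.Agent.WIR.H5.wex done_hoe

theorem done_we2 : We2Stmt := Pool.Agent.WIR.H80.we2

theorem done_wms : WmsStmt := Pool.Agent.WIR.H94.wms done_hoe

theorem done_wcf : WcfStmt := Pool.Agent.WIR.H86.wcf done_hfr done_wex done_hoe

theorem done_wtl : WtlStmt := Pool.Agent.Helper92_WIR.wtl done_wcf

theorem done_gen : GenStmt := Pool.Agent.WIR.H33.gen

theorem done_win : WinStmt := Pool.Agent.WIR.H94.win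

theorem done_psf : PsfStmt := Pool.Agent.WIR.H76.psf done_wtl done_wms done_gen done_win done_wex done_we2

theorem done_mea : MeaStmt := Pool.Agent.WIR.H47.mea

theorem done_uts : UtsStmt := Pool.Agent.WIR.H49.uts done_mea done_apr

theorem done_int : IntStmt := Pool.Agent.WIR.H88I.int done_mea done_apr done_flo done_prj

theorem done_wlm : WlmStmt := Pool.Agent.WIR.H88W.wlm done_mea done_wcf done_wms

theorem done_pos : PosStmt := Pool.Agent.WIR.H81.pos done_mea done_uts done_psf

theorem done_tal : TalStmt := Pool.Agent.WIR.H88.tal done_mea done_ulx done_tyb done_flo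

theorem done_aec : AecStmt := Pool.Agent.WIR.H33.aec done_mea done_tyb done_tal done_int

theorem done_sbr : SbrStmt := Pool.Agent.WIR.H88S.sbr done_tyb done_uts done_int done_mea

theorem done_sch : SchStmt := Pool.Agent.WIR.H49.sch

theorem done_fin : FinStmt := Pool.Agent.WIR.H81.fin done_wlm done_pos done_aec done_sbr done_uts done_int done_sch done_tyb

end Pool.Agent.WIR
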